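import Pool.Agent.Work.MP_a6e60d_ag.Main.Final
import Pool.Agent.Work.MP_a6e60d_ag.Fld.Rat
import Pool.Agent.Work.MP_a6e60d_ag.Fld.Gen

/-!
MP_a6e60d_ag: the theorem over all fields in which `-3` is not a square and some element is not
a cube.
-/

open CategoryTheory AlgebraicGeometry

attribute [-instance] CategoryTheory.catToReflQuiver

namespace FdDG

theorem exists_of_cube (k : Type) [Field k] (h3 : ¬ IsSquare (-3 : k)) (c : k)
    (hc : ∀ x : k, x ^ 3 ≠ c) : ∃ (X : Scheme.{0}) (_ : X.Over (Spec (.of k))),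
      IsSmoothProj k X ∧
      (∃ R : DGAlg.{0} k, R.IsSmooth ∧ R.IsFinDim ∧ QuasiEquivalent (perfDG k X) R.perf) ∧
      ¬ HasFullSemiExceptionalCollection k X := by
  obtain ⟨F, L, K, _, _, _, _, _, _, _, _, _, _, D, -, -, -⟩ :=
    Orl.Fld.exists_datum_gen k c h3 hc
  exact ⟨Orl.XK D.a D.c, inferInstance, Orl.XK.isSmoothProj D.two D.three D.a_ne D.c_ne,
    Orl.Main.main_of_datum D⟩

theorem not_isSquare_neg_three : ¬ IsSquare (-3 : ℚ) := by
  rintro ⟨x, hx⟩
  nlinarith [mul_self_nonneg x]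

end FdDG
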