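import Pool.Agent.Work.MP_a6e60d_ag.Main.Conv
import Pool.Agent.Work.MP_a6e60d_ag.Main.Last

/-!
MP_a6e60d_ag: the theorem with the linear structure of `DefsFin`.
-/

open CategoryTheory AlgebraicGeometry

attribute [-instance] CategoryTheory.catToReflQuiver

namespace FdPerf

open FdDG (DGAlg QuasiEquivalent IsSmoothProj)

theorem exists_of_cube (k : Type) [Field k] (h3 : ¬ IsSquare (-3 : k)) (c : k)
    (hc : ∀ x : k, x ^ 3 ≠ c) : ∃ (X : Scheme.{0}) (_ : X.Over (Spec (.of k))),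
      IsSmoothProj k X ∧
      (∃ R : DGAlg.{0} k, R.IsSmooth ∧ R.IsFinDim ∧ QuasiEquivalent (perfDG k X) R.perf) ∧
      ¬ HasFullSemiExceptionalCollection k X := by
  obtain ⟨X, i, h1, ⟨R, h2, h4, h5⟩, h6⟩ := FdDG.exists_of_cube k h3 c hc
  refine ⟨X, i, h1, ⟨R, h2, h4, ?_⟩, fun h => h6 ((hasFull_iff k X).1 h)⟩
  rw [perfDG_eq]
  exact h5

end FdPerf
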