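import Pool.Agent.Work.MP_a6e60d_ag.Main.NoColl
import Pool.Agent.Work.MP_a6e60d_ag.DG.EndMorita
import Pool.Agent.Work.MP_a6e60d_ag.Perf.Inj
import Pool.Agent.Work.MP_a6e60d_ag.Defs

/-!
MP_a6e60d_ag, final assembly: the abstract form of the theorem.
-/

open CategoryTheory CochainComplex HomComplex Limits Pretriangulated ZeroObject AlgebraicGeometry

attribute [-instance] CategoryTheory.catToReflQuiver

universe w v u w' w''

namespace Orl.Main

section Gen

variable {D : Type u} [Category.{v} D] [Preadditive D] [HasZeroObject D] [HasShift D ℤ]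
  [∀ n : ℤ, (CategoryTheory.shiftFunctor D n).Additive] [Pretriangulated D]

/-- `X` and `X ⊞ X⟦1⟧` generate the same thick subcategory -/
theorem gen_biprod_shift (X : D) : Gen (X ⊞ X⟦(1 : ℤ)⟧) = Gen X := by
  apply le_antisymm
  · refine gen_le_of _ _ ?_
    have h1 : Gen X X := gen_self X
    have h2 : Gen X (X⟦(1 : ℤ)⟧) := (Gen X).le_shift 1 _ h1
    exact (Gen X).ext_of_isTriangulatedClosed₂ _ (binaryBiproductTriangle_distinguished X _) h1 h2
  · refine gen_le_of _ _ ?_
    exact (Gen _).prop_of_retract ⟨biprod.inl, biprod.fst, biprod.inl_fst⟩ (gen_self _)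

end Gen

section Fd

variable {k : Type} [Field k] {D : Type u} [Category.{v} D] [Preadditive D] [HasZeroObject D]
  [HasShift D ℤ] [∀ n : ℤ, (CategoryTheory.shiftFunctor D n).Additive] [Pretriangulated D]
  [Linear k D]

omit [HasZeroObject D] [∀ n : ℤ, (CategoryTheory.shiftFunctor D n).Additive]
  [Pretriangulated D] in
theorem isSemiExceptional_of_fd {E : D} (h : FdDG.IsSemiExceptional k E) :
    IsSemiExceptional k E :=
  ⟨h.hom_eq_zero, h.finite, h.semisimple⟩

omit [HasZeroObject D] [∀ n : ℤ, (CategoryTheory.shiftFunctor D n).Additive]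
  [Pretriangulated D] in
theorem isSemiExcCollection_of_fd {n : ℕ} {E : Fin n → D}
    (h : FdDG.IsSemiExceptionalCollection k E) : IsSemiExcCollection k E :=
  ⟨fun i => isSemiExceptional_of_fd (h.1 i), h.2⟩

/-- a full semi-exceptional collection in the form of Theorem B -/
theorem exists_collection_of_fd {X : Scheme.{0}} [X.Over (Spec (.of k))]
    {Y : DerivedCategory X.Modules}
    (hP : ∀ E : DerivedCategory X.Modules, FdDG.IsPerfectObj E ↔ Gen Y E)
    (h : FdDG.HasFullSemiExceptionalCollection k X) :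
    ∃ (n : ℕ) (E : Fin n → DerivedCategory X.Modules), (∀ i, Gen Y (E i)) ∧
      IsSemiExcCollection k E ∧ FullIn (Gen Y) E := by
  obtain ⟨n, E, h1, h2, h3⟩ := h
  refine ⟨n, E, fun i => (hP _).1 (h1 i), isSemiExcCollection_of_fd h2, ?_⟩
  intro Q hQ hr hi A hA
  have h4 : (fun Z : DerivedCategory X.Modules => ∃ i, Z = E i) ≤ Q := by
    rintro _ ⟨i, rfl⟩
    exact hi i
  exact ((ObjectProperty.triangEnvelope_le_iff _).2 h4) _ (h3 A ((hP _).2 hA))

end Fd

section Main

variable {k : Type} [Field k] {X : Scheme.{0}} [X.Over (Spec (.of k))]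
  {C : Type 1} [Category.{0} C] [Abelian C] [Linear k C] [HasDerivedCategory.{w''} C]
  [EnoughInjectives C] [HasColimitsOfShape (Discrete ℕ) C]
  (Φ : X.Modules ⥤ C) [Φ.Additive] [Φ.Linear k] (G : X.Modules)

/-- the object as an object of the derived category -/
noncomputable abbrev sgl {D : Type u} [Category.{v} D] [Abelian D] [HasDerivedCategory.{w} D]
    (M : D) : DerivedCategory D :=
  DerivedCategory.Q.obj ((HomologicalComplex.single D (ComplexShape.up ℤ) 0).obj M)

/-- the bridge between `X.Modules` and `C` -/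
structure Bridge : Prop where
  acyc : ∀ (I : CochainComplex X.Modules ℤ) [I.IsKInjective]
    (ε : (HomologicalComplex.single X.Modules (ComplexShape.up ℤ) 0).obj G ⟶ I) [QuasiIso ε],
    QuasiIso ((Φ.mapHomologicalComplex _).map ε)
  qIso : ∀ (I : CochainComplex X.Modules ℤ) [I.IsKInjective]
    (ε : (HomologicalComplex.single X.Modules (ComplexShape.up ℤ) 0).obj G ⟶ I) [QuasiIso ε]
    (J : CochainComplex C ℤ) [J.IsKInjective] (q : (Φ.mapHomologicalComplex _).obj I ⟶ J)
    [QuasiIso q], QIso (mixl (mapDG (k := k) Φ) (b := J) (Cochain.ofHom q) I)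

variable {Φ G}

omit [EnoughInjectives C] in
theorem thick_iff_gen {I : CochainComplex C ℤ} (hI : I.IsKInjective) (K : CochainComplex C ℤ) :
    DGCat.Thick (A := cxDG k C) I K ↔
      K.IsKInjective ∧ Gen (DerivedCategory.Q.obj I) (DerivedCategory.Q.obj K) := by
  constructor
  · intro h
    have hK := isKInjective_of_thick hI h
    exact ⟨hK, (thick_iff k hI hK).1 h⟩
  · rintro ⟨hK, h⟩
    exact (thick_iff k hI hK).2 h

omit [EnoughInjectives C] in
theorem thick_congr {I J : CochainComplex C ℤ} (hI : I.IsKInjective) (hJ : J.IsKInjective)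
    (h : Gen (DerivedCategory.Q.obj I) = Gen (DerivedCategory.Q.obj J)) :
    DGCat.Thick (A := cxDG k C) I = DGCat.Thick (A := cxDG k C) J := by
  funext K
  change CochainComplex C ℤ at K
  exact propext ((thick_iff_gen hI K).trans (by rw [h]; exact (thick_iff_gen hJ K).symm))

omit [Linear k C] [Φ.Linear k] [X.Over (Spec (.of k))] [HasColimitsOfShape (Discrete ℕ) C] in
/-- K-injective resolutions on both sides -/
theorem exists_resolution
    (hac : ∀ (I : CochainComplex X.Modules ℤ) [I.IsKInjective]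
      (ε : (HomologicalComplex.single X.Modules (ComplexShape.up ℤ) 0).obj G ⟶ I) [QuasiIso ε],
      QuasiIso ((Φ.mapHomologicalComplex _).map ε)) :
    ∃ (I : CochainComplex X.Modules ℤ)
      (ε : (HomologicalComplex.single X.Modules (ComplexShape.up ℤ) 0).obj G ⟶ I)
      (J : CochainComplex C ℤ) (q : (Φ.mapHomologicalComplex _).obj I ⟶ J),
      I.IsKInjective ∧ QuasiIso ε ∧ J.IsKInjective ∧ QuasiIso q ∧
        Gen (DerivedCategory.Q.obj I) = Gen (sgl G) ∧
        Gen (DerivedCategory.Q.obj J) = Gen (sgl (Φ.obj G)) := by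
  obtain ⟨I, ε, hε, -, -, hI⟩ := Perf.exists_kinj
    ((HomologicalComplex.single X.Modules (ComplexShape.up ℤ) 0).obj G) 0
  obtain ⟨J, i, hi, -, -, hJ⟩ := Perf.exists_kinj
    ((HomologicalComplex.single C (ComplexShape.up ℤ) 0).obj (Φ.obj G)) 0
  have hac' := hac I ε
  let e₁ : (Φ.mapHomologicalComplex (ComplexShape.up ℤ)).obj
      ((HomologicalComplex.single X.Modules (ComplexShape.up ℤ) 0).obj G) ≅
      (HomologicalComplex.single C (ComplexShape.up ℤ) 0).obj (Φ.obj G) :=
    (HomologicalComplex.singleMapHomologicalComplex Φ (ComplexShape.up ℤ) 0).app G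
  let e : DerivedCategory.Q.obj ((Φ.mapHomologicalComplex _).obj I) ≅ DerivedCategory.Q.obj J :=
    (asIso (DerivedCategory.Q.map ((Φ.mapHomologicalComplex _).map ε))).symm ≪≫
      DerivedCategory.Q.mapIso e₁ ≪≫ asIso (DerivedCategory.Q.map i)
  obtain ⟨q, hq⟩ := exists_quasiIso_of_kinj e
  exact ⟨I, ε, J, q, hI, hε, hJ, hq, gen_congr (asIso (DerivedCategory.Q.map ε)).symm,
    gen_congr (asIso (DerivedCategory.Q.map i)).symm⟩

variable (hP : ∀ K : CochainComplex X.Modules ℤ,
    FdDG.IsPerfect K ↔ Gen (sgl G) (DerivedCategory.Q.obj K))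
  (hP' : ∀ E : DerivedCategory X.Modules, FdDG.IsPerfectObj E ↔ Gen (sgl G) E)
  (hbr : Bridge (k := k) Φ G)

include hP hbr in
/-- the positive half, in terms of the DG categories `Orl` -/
theorem quasiEquivalent_main {A : Type 1} [Category.{0} A] [Preadditive A] [Linear k A]
    (Ψ : A ⥤ C) [Ψ.Additive] [Ψ.Linear k] (P : CochainComplex A ℤ) (n : ℤ)
    [CochainComplex.IsStrictlyGE ((Ψ.mapHomologicalComplex (ComplexShape.up ℤ)).obj P) n]
    (hA : ∀ (J : CochainComplex C ℤ) [J.IsKInjective]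
      (q : (Ψ.mapHomologicalComplex (ComplexShape.up ℤ)).obj P ⟶ J) [QuasiIso q],
      QIso (mixl (mapDG (k := k) Ψ) (b := J) (Cochain.ofHom q) P))
    (eA : Nonempty (DerivedCategory.Q.obj ((Ψ.mapHomologicalComplex (ComplexShape.up ℤ)).obj P) ≅
      sgl (Φ.obj G) ⊞ (sgl (Φ.obj G))⟦(1 : ℤ)⟧)) :
    QuasiEquivalent
      ((cxDG k X.Modules).full fun I : CochainComplex X.Modules ℤ =>
        I.IsKInjective ∧ FdDG.IsPerfect I)
      (perfDG ((cxDG k A).endAlg P)) := by
  obtain ⟨I, ε, J₀, p, hI, hε, hJ₀, hp, hgI, hgJ₀⟩ := exists_resolution hbr.acyc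
  obtain ⟨J, q, hq, -, -, hJ⟩ := Perf.exists_kinj
    ((Ψ.mapHomologicalComplex (ComplexShape.up ℤ)).obj P) n
  obtain ⟨eA⟩ := eA
  have hgJ : Gen (DerivedCategory.Q.obj J) = Gen (DerivedCategory.Q.obj J₀) := by
    rw [hgJ₀, ← gen_biprod_shift (sgl (Φ.obj G)), ← gen_congr eA,
      gen_congr (asIso (DerivedCategory.Q.map q))]
  have h1 := quasiEquivalent_cx Φ p (hbr.qIso I ε J₀ p)
  have h2 := quasiEquivalent_perfDG_endAlg_cx Ψ q (hA J q)
  rw [thick_congr hJ hJ₀ hgJ] at h2
  have h3 : (fun K : CochainComplex X.Modules ℤ => K.IsKInjective ∧ FdDG.IsPerfect K) =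
      DGCat.Thick (A := cxDG k X.Modules) I := by
    funext K
    apply propext
    exact (Iff.trans (by rw [hgI, hP]) (thick_iff_gen hI K).symm)
  rw [← h3] at h1
  exact h1.trans h2.symm

omit [HasColimitsOfShape (Discrete ℕ) C] in
include hP' hbr in
/-- the negative half -/
theorem no_collection_main
    (hB : ¬ ∃ (n : ℕ) (E : Fin n → DerivedCategory C), (∀ i, Gen (sgl (Φ.obj G)) (E i)) ∧
      IsSemiExcCollection k E ∧ FullIn (Gen (sgl (Φ.obj G))) E) :
    ¬ FdDG.HasFullSemiExceptionalCollection k X := by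
  intro h
  obtain ⟨I, ε, J, q, hI, hε, hJ, hq, hgI, hgJ⟩ := exists_resolution hbr.acyc
  have h1 := exists_collection_of_fd hP' h
  rw [← hgI] at h1
  have h2 := collection_transport Φ hI q (hbr.qIso I ε J q) h1
  rw [hgJ] at h2
  exact hB h2

end Main

end Orl.Main
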