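import Pool.Agent.Work.MP_a6e60d_ag.Defs
import Pool.Agent.Work.MP_a6e60d_ag.DefsFin

/-!
MP_a6e60d_ag: the two descriptions of the linear structure of the category of sheaves of modules
agree.
-/

open CategoryTheory Limits AlgebraicGeometry

attribute [-instance] CategoryTheory.catToReflQuiver

namespace FdPerf

open FdDG

variable (k : Type) [Field k] (X : Scheme.{0}) [X.Over (Spec (.of k))]

theorem linear_ext {C : Type*} [Category C] [Preadditive C] (L L' : Linear k C)
    (h : ∀ (M N : C) (c : k) (f : M ⟶ N), (L.homModule M N).smul c f =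
      (L'.homModule M N).smul c f) : L = L' := by
  obtain ⟨m, h1, h2⟩ := L
  obtain ⟨m', h1', h2'⟩ := L'
  have e : m = m' := by
    funext M N
    exact Module.ext' _ _ fun c f => h M N c f
  subst e
  rfl

theorem linMod_eq : linMod k X = Fdim.linearModules k X := by
  refine linear_ext k _ _ fun M N c f => ?_
  refine Scheme.Modules.hom_ext _ _ fun U => ?_
  ext s
  exact ((exists_linear k X).choose_spec M N f c U s).trans
    (Fdim.ap_linear c f U s).symm

theorem perfDG_eq : perfDG k X = FdDG.perfDG k X := by
  have h : ∀ L : Linear k X.Modules, L = Fdim.linearModules k X →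
      ((@complexes k _ X.Modules _ _ L).full fun I : CochainComplex X.Modules ℤ =>
        I.IsKInjective ∧ IsPerfect I) = FdDG.perfDG k X := by
    rintro _ rfl
    rfl
  exact h _ (linMod_eq k X)

theorem hasFull_iff : HasFullSemiExceptionalCollection k X ↔
    FdDG.HasFullSemiExceptionalCollection k X := by
  have h : ∀ L : Linear k X.Modules, L = Fdim.linearModules k X →
      ((∃ (n : ℕ) (E : Fin n → DerivedCategory X.Modules), (∀ i, IsPerfectObj (E i)) ∧
        IsSemiExceptionalCollection k E ∧ ∀ K : DerivedCategory X.Modules, IsPerfectObj K →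
          ObjectProperty.triangEnvelope (fun Z : DerivedCategory X.Modules => ∃ i, Z = E i) K) ↔
        FdDG.HasFullSemiExceptionalCollection k X) := by
    rintro _ rfl
    rfl
  exact h _ (linMod_eq k X)

end FdPerf
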