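import Pool.Agent.Work.MP_a6e60d_ag.Num.Gen

/-!
MP_a6e60d_ag, final assembly: a triangulated functor which is bijective on the morphisms
`G ⟶ G⟦n⟧` is fully faithful on the thick closure of `G`.
-/

open CategoryTheory Category Limits Pretriangulated ZeroObject

set_option linter.unusedSectionVars false

attribute [-instance] CategoryTheory.catToReflQuiver

universe v v₁ u u₁

namespace Orl.Main

section

variable {K : Type u} [Category.{v} K] {D : Type u₁} [Category.{v₁} D] (F : K ⥤ D)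

/-- the functor is bijective on the morphisms from `X` to `Y` -/
def Bij (X Y : K) : Prop := Function.Bijective (F.map : (X ⟶ Y) → (F.obj X ⟶ F.obj Y))

variable {F}

theorem Bij.of_iso {X X' Y Y' : K} (h : Bij F X Y) (e : X ≅ X') (e' : Y ≅ Y') :
    Bij F X' Y' := by
  constructor
  · intro a b hab
    have h1 : F.map (e.hom ≫ a ≫ e'.inv) = F.map (e.hom ≫ b ≫ e'.inv) := by
      simp only [F.map_comp]
      rw [hab]
    have h2 := h.1 h1
    rwa [cancel_epi, cancel_mono] at h2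
  · intro a
    obtain ⟨b, hb⟩ := h.2 (F.map e.hom ≫ a ≫ F.map e'.inv)
    refine ⟨e.inv ≫ b ≫ e'.hom, ?_⟩
    rw [F.map_comp, F.map_comp, hb]
    simp [← F.map_comp, ← F.map_comp_assoc]

theorem Bij.of_retract {X X' Y Y' : K} (h : Bij F X Y) (e : Retract X' X) (e' : Retract Y' Y) :
    Bij F X' Y' := by
  constructor
  · intro a b hab
    have h1 : F.map (e.r ≫ a ≫ e'.i) = F.map (e.r ≫ b ≫ e'.i) := by
      simp only [F.map_comp]
      rw [hab]
    have h2 := h.1 h1
    have h3 := congrArg (fun x => e.i ≫ x ≫ e'.r) h2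
    simpa using h3
  · intro a
    obtain ⟨b, hb⟩ := h.2 (F.map e.r ≫ a ≫ F.map e'.i)
    refine ⟨e.i ≫ b ≫ e'.r, ?_⟩
    rw [F.map_comp, F.map_comp, hb]
    have h1 : F.map e.i ≫ F.map e.r = 𝟙 _ := by rw [← F.map_comp, e.retract, F.map_id]
    have h2 : F.map e'.i ≫ F.map e'.r = 𝟙 _ := by rw [← F.map_comp, e'.retract, F.map_id]
    simp only [assoc, h2, comp_id]
    rw [← assoc, h1, id_comp]

end

section

variable {K : Type u} [Category.{v} K] [Preadditive K] [HasZeroObject K] [HasShift K ℤ]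
  [∀ n : ℤ, (shiftFunctor K n).Additive] [Pretriangulated K]
  {D : Type u₁} [Category.{v₁} D] [Preadditive D] [HasZeroObject D] [HasShift D ℤ]
  [∀ n : ℤ, (shiftFunctor D n).Additive] [Pretriangulated D]
  {F : K ⥤ D} [F.CommShift ℤ] [F.IsTriangulated]

theorem Bij.shift {X Y : K} (h : Bij F X Y) (m : ℤ) : Bij F (X⟦m⟧) (Y⟦m⟧) := by
  constructor
  · intro a b hab
    obtain ⟨a, rfl⟩ := (shiftFunctor K m).map_surjective a
    obtain ⟨b, rfl⟩ := (shiftFunctor K m).map_surjective b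
    congr 1
    apply h.1
    apply (shiftFunctor D m).map_injective
    have h1 := (F.commShiftIso m).hom.naturality a
    have h2 := (F.commShiftIso m).hom.naturality b
    simp only [Functor.comp_map] at h1 h2
    rw [← cancel_epi ((F.commShiftIso m).hom.app X), ← h1, ← h2, hab]
  · intro a
    obtain ⟨b, hb⟩ := (shiftFunctor D m).map_surjective
      ((F.commShiftIso m).inv.app X ≫ a ≫ (F.commShiftIso m).hom.app Y)
    obtain ⟨c, rfl⟩ := h.2 b
    refine ⟨c⟦m⟧', ?_⟩
    have h1 := (F.commShiftIso m).hom.naturality c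
    simp only [Functor.comp_map] at h1
    rw [← cancel_mono ((F.commShiftIso m).hom.app Y), h1, hb]
    simp

/-- bijectivity for all shifts of the target -/
def BijZ (F : K ⥤ D) (X Y : K) : Prop := ∀ n : ℤ, Bij F X (Y⟦n⟧)

theorem BijZ.bij {X Y : K} (h : BijZ F X Y) : Bij F X Y :=
  (h 0).of_iso (Iso.refl X) ((shiftFunctorZero K ℤ).app Y)

theorem BijZ.shift_right {X Y : K} (h : BijZ F X Y) (m : ℤ) : BijZ F X (Y⟦m⟧) := fun n =>
  (h (m + n)).of_iso (Iso.refl X) ((shiftFunctorAdd K m n).app Y)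

theorem BijZ.shift_left {X Y : K} (h : BijZ F X Y) (m : ℤ) : BijZ F (X⟦m⟧) Y := fun n =>
  ((h.shift_right (n - m)).bij.shift m).of_iso (Iso.refl _)
    ((shiftFunctorAdd' K (n - m) m n (by ring)).symm.app Y)

theorem BijZ.of_retract {X X' Y Y' : K} (h : BijZ F X Y) (e : Retract X' X)
    (e' : Retract Y' Y) : BijZ F X' Y' := fun n =>
  (h n).of_retract e (e'.map (shiftFunctor K n))

omit [HasZeroObject K] [Pretriangulated K] [HasZeroObject D] [Pretriangulated D]
  [F.IsTriangulated] in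
theorem Bij.of_isZero_right {X Y : K} [F.Additive] (hY : IsZero Y) : Bij F X Y := by
  have hY' : IsZero (F.obj Y) := F.map_isZero hY
  exact ⟨fun a b _ => hY.eq_of_tgt a b, fun a => ⟨0, hY'.eq_of_tgt _ _⟩⟩

omit [HasZeroObject K] [Pretriangulated K] [HasZeroObject D] [Pretriangulated D]
  [F.IsTriangulated] in
theorem Bij.of_isZero_left {X Y : K} [F.Additive] (hX : IsZero X) : Bij F X Y := by
  have hX' : IsZero (F.obj X) := F.map_isZero hX
  exact ⟨fun a b _ => hX.eq_of_src a b, fun a => ⟨0, hX'.eq_of_src _ _⟩⟩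

theorem Bij.eq_zero {X Y : K} (h : Bij F X Y) {a : X ⟶ Y} (ha : F.map a = 0) : a = 0 :=
  h.1 (ha.trans (F.map_zero _ _).symm)

theorem bij_of_eq_zero {X Y : K} (h₁ : ∀ a : X ⟶ Y, F.map a = 0 → a = 0)
    (h₂ : Function.Surjective (F.map : (X ⟶ Y) → (F.obj X ⟶ F.obj Y))) : Bij F X Y := by
  refine ⟨fun a b hab => sub_eq_zero.1 (h₁ _ ?_), h₂⟩
  rw [F.map_sub, hab, sub_self]

theorem bij_obj₃ {X : K} {T : Triangle K} (hT : T ∈ distTriang K) (h₁ : BijZ F X T.obj₁)
    (h₂ : BijZ F X T.obj₂) : Bij F X T.obj₃ := by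
  have hF := F.map_distinguished T hT
  refine bij_of_eq_zero (fun a ha => ?_) (fun a => ?_)
  · have h3 : a ≫ T.mor₃ = 0 := (h₁ 1).eq_zero (by rw [F.map_comp, ha, zero_comp])
    obtain ⟨b, rfl⟩ := Triangle.coyoneda_exact₃ T hT a h3
    rw [F.map_comp] at ha
    obtain ⟨c', hc'⟩ := Triangle.coyoneda_exact₂ _ hF (F.map b) ha
    obtain ⟨c, rfl⟩ := h₁.bij.2 c'
    have h4 : b - c ≫ T.mor₁ = 0 := h₂.bij.eq_zero (by
      rw [F.map_sub, F.map_comp, hc']
      exact sub_self _)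
    rw [sub_eq_zero.1 h4, assoc, comp_distTriang_mor_zero₁₂ T hT, comp_zero]
  · obtain ⟨d, hd⟩ := (h₁ 1).2 (a ≫ F.map T.mor₃)
    have h4 : d ≫ T.mor₁⟦(1 : ℤ)⟧' = 0 := (h₂ 1).eq_zero (by
      rw [F.map_comp, hd, assoc, ← F.map_comp, comp_distTriang_mor_zero₃₁ T hT, F.map_zero,
        comp_zero])
    obtain ⟨e, rfl⟩ := Triangle.coyoneda_exact₁ T hT d h4
    rw [F.map_comp] at hd
    have h5 : (a - F.map e) ≫ (F.mapTriangle.obj T).mor₃ = 0 := by
      change (a - F.map e) ≫ F.map T.mor₃ ≫ (F.commShiftIso (1 : ℤ)).hom.app T.obj₁ = 0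
      rw [Preadditive.sub_comp, ← assoc, ← assoc, hd, sub_self]
    obtain ⟨b', hb'⟩ := Triangle.coyoneda_exact₃ _ hF _ h5
    obtain ⟨b, rfl⟩ := h₂.bij.2 b'
    refine ⟨e + b ≫ T.mor₂, ?_⟩
    rw [F.map_add, F.map_comp]
    have h6 : a - F.map e = F.map b ≫ F.map T.mor₂ := hb'
    rw [← h6]
    abel

theorem bijZ_obj₃ {X : K} {T : Triangle K} (hT : T ∈ distTriang K) (h₁ : BijZ F X T.obj₁)
    (h₂ : BijZ F X T.obj₂) : BijZ F X T.obj₃ := fun n =>
  bij_obj₃ (Triangle.shift_distinguished T hT n) (h₁.shift_right n) (h₂.shift_right n)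

theorem bij_obj₂_left {Y : K} {T : Triangle K} (hT : T ∈ distTriang K) (h₁ : BijZ F T.obj₁ Y)
    (h₃ : BijZ F T.obj₃ Y) : Bij F T.obj₂ Y := by
  have hF := F.map_distinguished T hT
  refine bij_of_eq_zero (fun a ha => ?_) (fun a => ?_)
  · have h4 : T.mor₁ ≫ a = 0 := h₁.bij.eq_zero (by rw [F.map_comp, ha, comp_zero])
    obtain ⟨b, rfl⟩ := Triangle.yoneda_exact₂ T hT a h4
    rw [F.map_comp] at ha
    obtain ⟨c', hc'⟩ : ∃ c' : (F.obj T.obj₁)⟦(1 : ℤ)⟧ ⟶ F.obj Y,
        F.map b = (F.map T.mor₃ ≫ (F.commShiftIso (1 : ℤ)).hom.app T.obj₁) ≫ c' :=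
      Triangle.yoneda_exact₃ _ hF (F.map b) ha
    obtain ⟨c, hc⟩ := (h₁.shift_left 1).bij.2 ((F.commShiftIso (1 : ℤ)).hom.app T.obj₁ ≫ c')
    have h5 : b - T.mor₃ ≫ c = 0 := h₃.bij.eq_zero (by
      rw [F.map_sub, F.map_comp, hc, hc', assoc, sub_self])
    rw [sub_eq_zero.1 h5, ← assoc, comp_distTriang_mor_zero₂₃ T hT, zero_comp]
  · obtain ⟨d, hd⟩ := h₁.bij.2 (F.map T.mor₁ ≫ a)
    obtain ⟨δ, hδ, hδ'⟩ : ∃ δ : T.obj₃⟦(-1 : ℤ)⟧ ⟶ T.obj₁, δ ≫ T.mor₁ = 0 ∧
        ∀ d : T.obj₁ ⟶ Y, δ ≫ d = 0 → ∃ e : T.obj₂ ⟶ Y, d = T.mor₁ ≫ e :=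
      ⟨T.invRotate.mor₁, comp_distTriang_mor_zero₁₂ _ (inv_rot_of_distTriang _ hT),
        fun d h => Triangle.yoneda_exact₂ _ (inv_rot_of_distTriang _ hT) d h⟩
    have h4 : δ ≫ d = 0 := (h₃.shift_left (-1)).bij.eq_zero (by
      rw [F.map_comp, hd, ← assoc, ← F.map_comp, hδ, F.map_zero, zero_comp])
    obtain ⟨e, rfl⟩ := hδ' d h4
    rw [F.map_comp] at hd
    have h5 : (F.mapTriangle.obj T).mor₁ ≫ (a - F.map e) = 0 := by
      change F.map T.mor₁ ≫ (a - F.map e) = 0
      rw [Preadditive.comp_sub, hd, sub_self]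
    obtain ⟨b', hb'⟩ := Triangle.yoneda_exact₂ _ hF _ h5
    obtain ⟨b, rfl⟩ := h₃.bij.2 b'
    refine ⟨e + T.mor₂ ≫ b, ?_⟩
    rw [F.map_add, F.map_comp]
    have h6 : a - F.map e = F.map T.mor₂ ≫ F.map b := hb'
    rw [← h6]
    abel

theorem bijZ_obj₂_left {Y : K} {T : Triangle K} (hT : T ∈ distTriang K) (h₁ : BijZ F T.obj₁ Y)
    (h₃ : BijZ F T.obj₃ Y) : BijZ F T.obj₂ Y := fun n =>
  bij_obj₂_left hT (h₁.shift_right n) (h₃.shift_right n)

/-- the objects `Y` with bijectivity on the morphisms from `X` to the shifts of `Y` -/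
def rightP (F : K ⥤ D) (X : K) : ObjectProperty K := fun Y => BijZ F X Y

/-- the objects `X` with bijectivity on the morphisms from `X` to the shifts of `Y` -/
def leftP (F : K ⥤ D) (Y : K) : ObjectProperty K := fun X => BijZ F X Y

instance (X : K) : (rightP F X).IsStableUnderRetracts where
  of_retract r h := h.of_retract (Retract.refl X) r

instance (Y : K) : (leftP F Y).IsStableUnderRetracts where
  of_retract r h := h.of_retract r (Retract.refl Y)

instance (X : K) : (rightP F X).IsClosedUnderIsomorphisms where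
  of_iso e h := fun n => (h n).of_iso (Iso.refl _) ((shiftFunctor K n).mapIso e)

instance (Y : K) : (leftP F Y).IsClosedUnderIsomorphisms where
  of_iso e h := fun n => (h n).of_iso e (Iso.refl _)

instance (X : K) : (rightP F X).IsTriangulated where
  exists_zero := ⟨0, isZero_zero K, fun n =>
    Bij.of_isZero_right ((shiftFunctor K n).map_isZero (isZero_zero K))⟩
  isStableUnderShiftBy n := ⟨fun _ hX => hX.shift_right n⟩
  toIsTriangulatedClosed₂ := ObjectProperty.IsTriangulatedClosed₂.mk' fun _ ht h1 h3 =>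
    bijZ_obj₃ (inv_rot_of_distTriang _ ht) (BijZ.shift_right h3 (-1)) h1

instance (Y : K) : (leftP F Y).IsTriangulated where
  exists_zero := ⟨0, isZero_zero K, fun _ => Bij.of_isZero_left (isZero_zero K)⟩
  isStableUnderShiftBy n := ⟨fun _ hX => BijZ.shift_left hX n⟩
  toIsTriangulatedClosed₂ := ObjectProperty.IsTriangulatedClosed₂.mk' fun _ ht h1 h3 =>
    bijZ_obj₂_left ht h1 h3

/-- the functor is bijective on the morphisms between objects with the property `P` -/
def FFOn (F : K ⥤ D) (P : ObjectProperty K) : Prop := ∀ X Y : K, P X → P Y → Bij F X Y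

/-- A triangulated functor which is bijective on the morphisms from `G` to the shifts of `G` is
fully faithful on the objects which belong to every thick property containing `G`. -/
theorem ffOn_of_gen (G : K) (hG : BijZ F G G) (P : ObjectProperty K)
    (hP : ∀ X, P X → ∀ Q : ObjectProperty K, Q.IsTriangulated → Q.IsStableUnderRetracts → Q G →
      Q X) : FFOn F P := by
  intro X Y hX hY
  have h1 : BijZ F G Y := hP Y hY (rightP F G) inferInstance inferInstance hG
  have h2 : BijZ F X Y := hP X hX (leftP F Y) inferInstance inferInstance h1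
  exact h2.bij

end

end Orl.Main
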