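import Pool.Agent.Work.MP_a6e60d_ag.DG.EndFin
import Pool.Agent.Work.MP_a6e60d_ag.DG.ToAlg

/-!
MP_a6e60d_ag, final assembly: finite-dimensional DG algebras in the sense of the statement.
-/

open CategoryTheory

attribute [-instance] CategoryTheory.catToReflQuiver

universe v w

namespace Orl

/-- A direct sum with finitely many nonzero summands, all of them finite. -/
theorem finite_directSum {k : Type w} [CommRing k] {X : ℤ → Type v} [∀ n, AddCommGroup (X n)]
    [∀ n, Module k (X n)] (h : ∀ n, Module.Finite k (X n)) (hs : {n : ℤ | Nontrivial (X n)}.Finite) :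
    Module.Finite k (DirectSum ℤ X) := by
  classical
  have : Fintype {n : ℤ | Nontrivial (X n)} := hs.fintype
  let φ : (∀ n : {n : ℤ | Nontrivial (X n)}, X n.1) →ₗ[k] DirectSum ℤ X :=
    ∑ n : {n : ℤ | Nontrivial (X n)}, (DirectSum.lof k ℤ X n.1).comp (LinearMap.proj n)
  refine Module.Finite.of_surjective φ fun x => ⟨fun n => x n.1, ?_⟩
  refine DFinsupp.ext fun m => ?_
  have e : φ (fun n => x n.1) = ∑ n : {n : ℤ | Nontrivial (X n)},
      DirectSum.lof k ℤ X n.1 (x n.1) := by
    simp [φ]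
  rw [e]
  by_cases hm : Nontrivial (X m)
  · have h1 : (∑ n : {n : ℤ | Nontrivial (X n)}, DirectSum.lof k ℤ X n.1 (x n.1)) m =
        ∑ n : {n : ℤ | Nontrivial (X n)}, (DirectSum.lof k ℤ X n.1 (x n.1)) m :=
      map_sum (DirectSum.component k ℤ X m) _ _
    rw [h1, Finset.sum_eq_single (⟨m, hm⟩ : {n : ℤ | Nontrivial (X n)})]
    · exact DirectSum.lof_apply k m (x m)
    · intro n _ hn
      exact DirectSum.of_eq_of_ne _ _ _ fun h => hn (Subtype.ext h.symm)
    · intro hn
      exact (hn (Finset.mem_univ _)).elim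
  · have := not_nontrivial_iff_subsingleton.1 hm
    exact Subsingleton.elim _ _

theorem DGAlg.IsFinDim.toFd {k : Type w} [CommRing k] {R : DGAlg.{v} k} (h : R.IsFinDim) :
    R.toFd.IsFinDim :=
  isFinDim_toFd.2 (finite_directSum h.1 h.2)

end Orl
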