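import Pool.Agent.Work.MP_a6e60d_ag.Q.MainGen
import Pool.Agent.Work.MP_a6e60d_ag.Q.TabMain
import Pool.Agent.Work.MP_a6e60d_ag.LF.Main
import Pool.Agent.Work.MP_a6e60d_ag.Sm.AppFin
import Pool.Agent.Work.MP_a6e60d_ag.Sm.InstD
import Pool.Agent.Work.MP_a6e60d_ag.DG.SmoothCx
import Pool.Agent.Work.MP_a6e60d_ag.Main.Abs
import Pool.Agent.Work.MP_a6e60d_ag.Br.MainX

/-!
MP_a6e60d_ag, final assembly, input (A): the complex `P` over the linear functors on `Λ`, whose
endomorphism DG algebra is finite-dimensional and smooth.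
-/

open CategoryTheory CochainComplex HomComplex Limits Pretriangulated ZeroObject AlgebraicGeometry

set_option linter.unusedSectionVars false

attribute [-instance] CategoryTheory.catToReflQuiver

universe w w₁ w₂ w₃ w₄

namespace Orl.Main

open Orl.Br Orl.Q Orl.Fld Orl.LF Orl.Gal

attribute [local instance] CategoryTheory.Abelian.hasFiniteBiproducts

section gen

variable {k : Type} [Field k] (δ : Q.Dat k)

/-- the generator is in the thick class of all `O(j)`, `E(j)` -/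
theorem inThk_sumG : InThk δ.OEf (sumG δ.ob) := fun _ hP hE =>
  hP.biproduct δ.ob fun j => by
    fin_cases j
    · exact hE (.inl 0)
    · exact hE (.inl 1)
    · exact hE (.inr 0)
    · exact hE (.inr 1)

/-- all `O(j)`, `E(j)` are in the thick class of the generator -/
theorem thk_OEf {P : ObjectProperty δ.Cat} (hP : Thk P) (h : P (sumG δ.ob)) (x : ℤ ⊕ ℤ) :
    P (δ.OEf x) := by
  have h1 := fun j => hP.of_biproduct δ.ob h j
  exact δ.thk_of_GT hP (hP.biprod (hP.biprod (h1 0) (h1 1)) (hP.biprod (h1 2) (h1 3))) x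

/-- the derived version -/
theorem thkOf_of_inThk [HasDerivedCategory.{w} δ.Cat] {X : δ.Cat} (h : InThk δ.OEf X) :
    ThkOf ((DerivedCategory.singleFunctor δ.Cat 0).obj (sumG δ.ob))
      ((DerivedCategory.singleFunctor δ.Cat 0).obj X) := by
  have hP := Thk.ofDerived (ThkOf ((DerivedCategory.singleFunctor δ.Cat 0).obj (sumG δ.ob)))
  exact h _ hP fun x => thk_OEf δ hP (ThkOf.self _) x

end gen

section ge

variable {k : Type} [Field k] {C A : Type 1} [Category.{0} C] [Category.{0} A] [Abelian C]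
  [Abelian A]

/-- the image of a complex with finitely many nonzero terms is bounded below -/
theorem exists_strictlyGE (Ψ : A ⥤ C) [Ψ.Additive] {P : CochainComplex A ℤ}
    (hP : {n | ¬ IsZero (P.X n)}.Finite) : ∃ n : ℤ, CochainComplex.IsStrictlyGE
      ((Ψ.mapHomologicalComplex (ComplexShape.up ℤ)).obj P) n := by
  obtain ⟨n, hn⟩ := hP.bddBelow
  refine ⟨n, (CochainComplex.isStrictlyGE_iff _ _).2 fun i hi => ?_⟩
  have h : IsZero (P.X i) := by
    by_contra h
    exact absurd (hn h) (not_le.2 hi)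
  exact Ψ.map_isZero h

end ge

variable {k F L K : Type} [Field k] [Field F] [Field L] [Field K] [Algebra k F]
    [Algebra k L] [Algebra k K] [Algebra F K] [Algebra L K] [IsScalarTower k F K]
    [IsScalarTower k L K] (D : FieldDatum k F L K)

section main

variable [FiniteDimensional k F] [FiniteDimensional k L] [FiniteDimensional k K]
  [FiniteDimensional F K] [FiniteDimensional L K] [IsGalois F K] [IsGalois L K] [IsGalois k K]
  [Algebra.IsSeparable k F] [Algebra.IsSeparable k L]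
  [HasExt.{w₂} (ModObj k K D.qd.Cat)]
  (T : Tab.{w₂} k (zact k K D.qd.Cat) (fun x => D.spl.M x.1 x.2) D.spl.O)

include T

theorem extHyp [HasExt.{w₁} D.qd.Cat] [HasExt.{w₃} (ModObj k F D.qd.Cat)]
    [HasExt.{w₄} (ModObj k L D.qd.Cat)] :
    ExtHyp.{w₁, w₃, w₄} (D.tF 7) D.tb (D.tF (-8)) where
  haa x y n hn := D.acyc_tF T 7 x y n hn
  hbb x y n hn := D.acyc_tb T x y n hn
  hff x y n hn := D.acyc_tF T (-8) x y n hn
  hba x y n hn := D.acyc_pt_LF T (le_refl _) x y n hn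
  hfa x y n hn := D.acyc_pt_FF T (by norm_num) x y n hn
  hfb x y n hn := D.acyc_pt_FL T (le_refl _) x y n hn

/-- **Input (A)**, from the table of the groups Ext. -/
theorem inputA_aux [HasDerivedCategory.{w} D.qd.Cat] :
    ∃ (A : Type 1) (_ : Category.{0} A) (_ : Abelian A) (_ : Linear k A)
      (Ψ : A ⥤ D.qd.Cat) (_ : Ψ.Additive) (_ : Ψ.Linear k) (P : CochainComplex A ℤ) (n : ℤ),
      CochainComplex.IsStrictlyGE ((Ψ.mapHomologicalComplex (ComplexShape.up ℤ)).obj P) n ∧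
      (∀ (J : CochainComplex D.qd.Cat ℤ) [J.IsKInjective]
        (q : (Ψ.mapHomologicalComplex (ComplexShape.up ℤ)).obj P ⟶ J) [QuasiIso q],
        QIso (mixl (mapDG (k := k) Ψ) (b := J) (Cochain.ofHom q) P)) ∧
      Nonempty (DerivedCategory.Q.obj ((Ψ.mapHomologicalComplex (ComplexShape.up ℤ)).obj P) ≅
        Orl.Main.sgl (sumG D.qd.ob) ⊞ (Orl.Main.sgl (sumG D.qd.ob))⟦(1 : ℤ)⟧) ∧
      ((cxDG k A).endAlg P).IsFinDim ∧ ((cxDG k A).endAlg P).IsSmooth := by
  let := HasExt.standard D.qd.Cat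
  let := HasExt.standard (ModObj k F D.qd.Cat)
  let := HasExt.standard (ModObj k L D.qd.Cat)
  let := HasExt.standard (LinFun k (Ob D.lf) D.qd.Cat)
  let := HasDerivedCategory.standard (LinFun k (Ob D.lf) D.qd.Cat)
  have hE := extHyp D T
  have hO := inThk_sumG D.qd
  obtain ⟨P, hP, φ⟩ := exists_P D.lf (D.tF 7) D.tb (D.tF (-8)) ⟨.inl 0⟩ hE (sumG D.qd.ob)
    (D.inThk_tF 7 hO) (D.inThk_tb hO) (D.inThk_tF (-8) hO)
  obtain ⟨n, hn⟩ := exists_strictlyGE (psi D.qd.Cat (Ob.lamData D.lf)) (tw_finite P hP)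
  have hB : ∀ X Y, Blk D.lf (D.tF 7) D.tb (D.tF (-8)) X → Blk D.lf (D.tF 7) D.tb (D.tF (-8)) Y →
      ∀ n : ℕ, 0 < n → Subsingleton (Abelian.Ext X Y n) := fun X Y hX hY n hn =>
    Blk_ext D.lf _ _ _ hE.haa hE.hbb hE.hff hE.hba hE.hfa hE.hfb X Y hX hY n hn
  have hfin : ∀ X Y, Blk D.lf (D.tF 7) D.tb (D.tF (-8)) X →
      Blk D.lf (D.tF 7) D.tb (D.tF (-8)) Y → Module.Finite k (X ⟶ Y) := fun X Y hX hY =>
    Blk_finite D.lf _ _ _ (D.finite_tF T 7 7) (D.finite_tb T) (D.finite_tF T (-8) (-8))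
      (D.finite_pt_LF T 7) (D.finite_pt_FF T (-8) 7) (D.finite_pt_FL T (-8)) X Y hX hY
  have ha : ∀ x, ThkOf ((DerivedCategory.singleFunctor D.qd.Cat 0).obj (sumG D.qd.ob))
      ((DerivedCategory.singleFunctor D.qd.Cat 0).obj (D.tF 7 x).pt) := fun x =>
    thkOf_of_inThk D.qd (D.pt_tF 7 x)
  have hb : ∀ x, ThkOf ((DerivedCategory.singleFunctor D.qd.Cat 0).obj (sumG D.qd.ob))
      ((DerivedCategory.singleFunctor D.qd.Cat 0).obj (D.tb x).pt) := fun x =>
    thkOf_of_inThk D.qd (D.pt_tb x)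
  have hf : ∀ x, ThkOf ((DerivedCategory.singleFunctor D.qd.Cat 0).obj (sumG D.qd.ob))
      ((DerivedCategory.singleFunctor D.qd.Cat 0).obj (D.tF (-8) x).pt) := fun x =>
    thkOf_of_inThk D.qd (D.pt_tF (-8) x)
  have hX : ∀ j, Blk D.lf (D.tF 7) D.tb (D.tF (-8)) (D.blocks 7 (-8) j) := fun j => blk_mem _ _ _ _ _
  refine ⟨LinFun k (Ob D.lf) D.qd.Cat, inferInstance, inferInstance, inferInstance,
    psi D.qd.Cat (Ob.lamData D.lf), inferInstance, inferInstance, P, n, hn, ?_,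
    (psi_iso D.lf (D.tF 7) D.tb (D.tF (-8)) hP (sumG D.qd.ob) φ).1, ?_, ?_⟩
  · intro J _ q _
    exact psi_qIso D.lf (D.tF 7) D.tb (D.tF (-8)) hE hP (sumG D.qd.ob) φ J q
  · exact isFinDim_endAlg (tw_finite P hP) (tw_hom_finite hfin P P hP hP)
  · exact smooth_cx (D.blocks_hom_zero T 7 (-8)) (D.finite_blocks T 7 (-8))
      (D.isSepAlg_blocks T 7 (-8)) (D.decomp_blocks 7 (-8) hP)
      (fun j => exists_left_blk D.lf (D.tF 7) D.tb (D.tF (-8)) hB (sumG D.qd.ob) ha hb hf hP φ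
        (hX j))
      (fun j => exists_right_blk D.lf (D.tF 7) D.tb (D.tF (-8)) hB (sumG D.qd.ob) ha hb hf hP φ
        (hX j))

end main

/-- **Input (A)**, from the table of the groups Ext. -/
theorem inputA_of_tab [HasExt.{w₂} (ModObj k K D.qd.Cat)]
    (T : Tab.{w₂} k (zact k K D.qd.Cat) (fun x => D.spl.M x.1 x.2) D.spl.O)
    [HasDerivedCategory.{w} D.qd.Cat] :
    ∃ (A : Type 1) (_ : Category.{0} A) (_ : Abelian A) (_ : Linear k A)
      (Ψ : A ⥤ D.qd.Cat) (_ : Ψ.Additive) (_ : Ψ.Linear k) (P : CochainComplex A ℤ) (n : ℤ),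
      CochainComplex.IsStrictlyGE ((Ψ.mapHomologicalComplex (ComplexShape.up ℤ)).obj P) n ∧
      (∀ (J : CochainComplex D.qd.Cat ℤ) [J.IsKInjective]
        (q : (Ψ.mapHomologicalComplex (ComplexShape.up ℤ)).obj P ⟶ J) [QuasiIso q],
        QIso (mixl (mapDG (k := k) Ψ) (b := J) (Cochain.ofHom q) P)) ∧
      Nonempty (DerivedCategory.Q.obj ((Ψ.mapHomologicalComplex (ComplexShape.up ℤ)).obj P) ≅
        Orl.Main.sgl (sumG D.qd.ob) ⊞ (Orl.Main.sgl (sumG D.qd.ob))⟦(1 : ℤ)⟧) ∧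
      ((cxDG k A).endAlg P).IsFinDim ∧ ((cxDG k A).endAlg P).IsSmooth := by
  have := D.finite_F
  have := D.finite_L
  have := D.finite_K
  have := D.finite_KF
  have := D.finite_KL
  have := D.isGalois_K
  have := D.isGalois_KF
  have := D.isGalois_KL
  have : Algebra.IsSeparable k F := Algebra.isSeparable_tower_bot_of_isSeparable k F K
  have : Algebra.IsSeparable k L := Algebra.isSeparable_tower_bot_of_isSeparable k L K
  exact inputA_aux D T

/-- **Input (A)**. -/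
theorem inputA [HasDerivedCategory.{w} D.qd.Cat] :
    ∃ (A : Type 1) (_ : Category.{0} A) (_ : Abelian A) (_ : Linear k A)
      (Ψ : A ⥤ D.qd.Cat) (_ : Ψ.Additive) (_ : Ψ.Linear k) (P : CochainComplex A ℤ) (n : ℤ),
      CochainComplex.IsStrictlyGE ((Ψ.mapHomologicalComplex (ComplexShape.up ℤ)).obj P) n ∧
      (∀ (J : CochainComplex D.qd.Cat ℤ) [J.IsKInjective]
        (q : (Ψ.mapHomologicalComplex (ComplexShape.up ℤ)).obj P ⟶ J) [QuasiIso q],
        QIso (mixl (mapDG (k := k) Ψ) (b := J) (Cochain.ofHom q) P)) ∧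
      Nonempty (DerivedCategory.Q.obj ((Ψ.mapHomologicalComplex (ComplexShape.up ℤ)).obj P) ≅
        Orl.Main.sgl (sumG D.qd.ob) ⊞ (Orl.Main.sgl (sumG D.qd.ob))⟦(1 : ℤ)⟧) ∧
      ((cxDG k A).endAlg P).IsFinDim ∧ ((cxDG k A).endAlg P).IsSmooth := by
  let := HasExt.standard (ModObj k K D.qd.Cat)
  have := D.finite_K
  exact inputA_of_tab D D.spl.tab

end Orl.Main
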