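import Pool.Agent.Work.MP_a6e60d_ag.BI.Final
import Pool.Agent.Work.MP_a6e60d_ag.Q.TabMain

/-!
MP_a6e60d_ag: Theorem B for the surface of a field datum. The thick closure of the objects O(j) and
E(j) of the concrete category has no full semi-exceptional collection.
-/

open CategoryTheory Limits Pretriangulated

attribute [-instance] CategoryTheory.catToReflQuiver

universe w

namespace Orl.Main

open Orl Orl.Gal Orl.LF Orl.BC Orl.Q Orl.Fld

attribute [local instance] CategoryTheory.Abelian.hasFiniteBiproducts

variable {k F L K : Type} [Field k] [Field F] [Field L] [Field K] [Algebra k F]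
    [Algebra k L] [Algebra k K] [Algebra F K] [Algebra L K] [IsScalarTower k F K]
    [IsScalarTower k L K] (D : FieldDatum k F L K)

/-- Theorem B for the concrete category of a field datum -/
theorem inputB [HasDerivedCategory.{w} D.qd.Cat] :
    ¬ ∃ (n : ℕ) (E : Fin n → DerivedCategory D.qd.Cat),
      (∀ i, OrlNum.thickOf (fun i : ℤ ⊕ ℤ =>
        (DerivedCategory.singleFunctor D.qd.Cat 0).obj (Sum.elim D.qd.O D.qd.E i)) (E i)) ∧
      IsSemiExcCollection k E ∧
      FullIn (OrlNum.thickOf (fun i : ℤ ⊕ ℤ =>
        (DerivedCategory.singleFunctor D.qd.Cat 0).obj (Sum.elim D.qd.O D.qd.E i))) E := by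
  have := D.finite_K
  let _ : HasExt (ModObj k K D.qd.Cat) := HasExt.standard _
  exact OrlNum.no_full_collection_of_tab D D.spl.tab

end Orl.Main
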