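import Pool.Agent.Work.MP_a6e60d_ag.Main.InputX0
import Pool.Agent.Work.MP_a6e60d_ag.Br.GRep
import Pool.Agent.Work.MP_a6e60d_ag.Conic.QIso
import Pool.Agent.Work.MP_a6e60d_ag.Conic.ExtV
import Pool.Agent.Work.MP_a6e60d_ag.Conic.FrTriv
import Pool.Agent.Work.MP_a6e60d_ag.Fld.Spl

/-!
MP_a6e60d_ag, final assembly: the input on the side of the surface.
-/

open CategoryTheory CochainComplex HomComplex Limits Pretriangulated ZeroObject AlgebraicGeometry

attribute [-instance] CategoryTheory.catToReflQuiver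

universe w

namespace Orl.Main

open Orl.Br Orl.Q Orl.Fld Fdim

attribute [local instance] CategoryTheory.Abelian.hasFiniteBiproducts

section charts

variable {k : Type} [Field k] {a : k} {cc : Fin 5 → k} {X : Scheme.{0}}
  [X.Over (Spec (.of k))] (Y : XCharts (.of k) a cc (X ↘ Spec (.of k))) {δ : Dat k}
  (ha : δ.a = a) (hq : δ.q = Polynomial.toLaurent (qx cc))

/-- the morphisms between the bundles -/
noncomputable def gY : GData δ Y.W (fun h => Y.W_mono h) Y.bun :=
  XCharts.FrData.gdata ha hq Y.frData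

theorem isIso_fac_tg (b : Bool) (j : ℤ) (v : Ch) : IsIso (fac ((gY Y ha hq).tg b j v)) :=
  XCharts.FrData.isIso_gen ha hq Y.frData b v j

theorem isIso_fac_g (b : Bool) (j : ℤ) (v : Ch) :
    ∃ e : (gY Y ha hq).rep.obj (v, b) ⟶ js (Y.W v) (Y.bun b j), IsIso e ∧
      e ≫ jsI (Y.W v) (Y.bun b j) = ((gY Y ha hq).ctriv b j).g v := by
  match v with
  | .zero => exact ⟨_, isIso_fac_tg Y ha hq b j .zero, fac_ι _⟩
  | .inf => exact ⟨_, isIso_fac_tg Y ha hq b j .inf, fac_ι _⟩
  | .mid =>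
    rw [(gY Y ha hq).ctriv_g_mid]
    have := isIso_fac_tg Y ha hq b j .zero
    exact ⟨_, isIso_fac_jsIncl (Y.W_mono (Ch.le_mid .zero)) ((gY Y ha hq).tg b j .zero),
      fac_ι _⟩

/-- the datum `XRep` of a surface with charts -/
noncomputable def xrepY [HasExt.{w} X.Modules] : XRep.{w} δ X :=
  XRep.ofTriv (gY Y ha hq).rep Y.W Y.W_inf_W.symm Y.W_sup_W (fun _ => ⟨_, rfl⟩) Y.bun
    (gY Y ha hq).ctriv (isIso_fac_g Y ha hq)
    (fun b j s n x => Y.frData.ext_eq_zero s.2 b 0 j s.1 n x)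

theorem xrepY_c [HasExt.{w} X.Modules] : (xrepY.{w} Y ha hq).c = Y.bun := rfl

end charts

theorem bun_eq_cY {k : Type} [Field k] {a : k} {cc : Fin 5 → k} {X : Scheme.{0}}
    {π : X ⟶ Spec (.of k)} (Y : XCharts (.of k) a cc π) : Y.bun = cY Y := by
  funext b j
  cases b <;> rfl

variable {k F L K : Type} [Field k] [Field F] [Field L] [Field K] [Algebra k F]
    [Algebra k L] [Algebra k K] [Algebra F K] [Algebra L K] [IsScalarTower k F K]
    [IsScalarTower k L K] (D : FieldDatum k F L K)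

theorem qd_q : D.qd.q = Polynomial.toLaurent (qx (cub (A := k) D.c)) := by
  rw [qx_cub, map_sub, map_pow, Polynomial.toLaurent_X, Polynomial.toLaurent_C]
  change LaurentPolynomial.T 3 - LaurentPolynomial.C D.c = _
  rw [LaurentPolynomial.T_pow]
  rfl

/-- **The input (X)** of the final assembly. -/
theorem inputX [HasExt.{w} (XK D.a D.c).Modules] :
    ∃ (F : TRep D.qd.tiling (XK D.a D.c).Modules) (M : MVData F)
      (ob : Fin 4 → (XK D.a D.c).Modules), IsPiece.{w} M (sumG ob) ∧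
      Nonempty (ob 0 ≅ (XK.charts D.a D.c).LL 1) ∧
      Nonempty (ob 1 ≅ (XK.charts D.a D.c).LL (XK.charts D.a D.c).cD) ∧
      Nonempty (ob 2 ≅ (XK.charts D.a D.c).EE 1) ∧
      Nonempty (ob 3 ≅ (XK.charts D.a D.c).EE (XK.charts D.a D.c).cD) ∧
      Nonempty (F.functor.obj (sumG ob) ≅ sumG D.qd.ob) :=
  inputX_of (xrepY.{w} (XK.charts D.a D.c) rfl (qd_q D)) (bun_eq_cY _)

end Orl.Main
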