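import Pool.Agent.Work.MP_a6e60d_ag.Main.Abs
import Pool.Agent.Work.MP_a6e60d_ag.Perf.FinalDefs
import Pool.Agent.Work.MP_a6e60d_ag.Vb.GenX
import Pool.Agent.Work.MP_a6e60d_ag.Vb.QCoh
import Pool.Agent.Work.MP_a6e60d_ag.Sch.XAmple
import Pool.Agent.Work.MP_a6e60d_ag.Sch.XK
import Pool.Agent.Work.MP_a6e60d_ag.Br.GlueG

/-!
MP_a6e60d_ag, final assembly: the perfect complexes on the surface are the thick closure of
`O ⊕ O(D) ⊕ E ⊕ E(D)`.
-/

open CategoryTheory CochainComplex HomComplex Limits Pretriangulated ZeroObject AlgebraicGeometry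

attribute [-instance] CategoryTheory.catToReflQuiver

namespace Orl.Main

open Fdim Fdim.Coc Orl.Perf Orl.Br

attribute [local instance] CategoryTheory.Abelian.hasFiniteBiproducts

variable {k : Type} [Field k] {a b : k} (h2 : (2 : k) ≠ 0) (h3 : (3 : k) ≠ 0) (ha : a ≠ 0)
  (hb : b ≠ 0) (ob : Fin 4 → (XK a b).Modules)
  (e₀ : Nonempty (ob 0 ≅ (XK.charts a b).LL 1))
  (e₁ : Nonempty (ob 1 ≅ (XK.charts a b).LL (XK.charts a b).cD))
  (e₂ : Nonempty (ob 2 ≅ (XK.charts a b).EE 1))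
  (e₃ : Nonempty (ob 3 ≅ (XK.charts a b).EE (XK.charts a b).cD))

include e₀ e₁ e₂ e₃

theorem isCoh_ob (i : Fin 4) : IsCoh (XK a b) (ob i) := by
  obtain ⟨e₀⟩ := e₀
  obtain ⟨e₁⟩ := e₁
  obtain ⟨e₂⟩ := e₂
  obtain ⟨e₃⟩ := e₃
  match i with
  | 0 => exact (IsCoh _).prop_of_iso e₀.symm ((XK.charts a b).isCoh_LL _)
  | 1 => exact (IsCoh _).prop_of_iso e₁.symm ((XK.charts a b).isCoh_LL _)
  | 2 => exact (IsCoh _).prop_of_iso e₂.symm ((XK.charts a b).isCoh_EE _)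
  | 3 => exact (IsCoh _).prop_of_iso e₃.symm ((XK.charts a b).isCoh_EE _)

theorem genPow_ob : GenPow ((XK.charts a b).cB * (XK.charts a b).cD ^ 3) (sgl (sumG ob)) := by
  obtain ⟨e₀⟩ := e₀
  obtain ⟨e₁⟩ := e₁
  obtain ⟨e₂⟩ := e₂
  obtain ⟨e₃⟩ := e₃
  intro P hP hPr h n
  have h' := (prop_single_sumG ob P 0).1 h
  exact (XK.charts a b).sg_ample (P := P) (Sg.of_iso (h' 0) e₀) (Sg.of_iso (h' 1) e₁)
    (Sg.of_iso (h' 2) e₂) (Sg.of_iso (h' 3) e₃) n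

theorem bddIn_ob : BddIn (IsCoh (XK a b)) (sgl (sumG ob)) :=
  bddIn_single_sumG ob (isCoh_ob ob e₀ e₁ e₂ e₃) 0

include h2 h3 ha hb

/-- the perfect complexes are the thick closure of the generator -/
theorem isPerfect_iff_gen (K : CochainComplex (XK a b).Modules ℤ) :
    FdDG.IsPerfect K ↔ Gen (sgl (sumG ob)) (DerivedCategory.Q.obj K) :=
  isPerfect_iff_thick (XK.isSmoothProj h2 h3 ha hb) (XK.charts a b).isAmpleCoc_H
    (bddIn_ob ob e₀ e₁ e₂ e₃) (genPow_ob ob e₀ e₁ e₂ e₃)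

/-- the perfect objects are the thick closure of the generator -/
theorem isPerfectObj_iff_gen (E : DerivedCategory (XK a b).Modules) :
    FdDG.IsPerfectObj E ↔ Gen (sgl (sumG ob)) E :=
  isPerfectObj_iff_thick (XK.isSmoothProj h2 h3 ha hb) (XK.charts a b).isAmpleCoc_H
    (bddIn_ob ob e₀ e₁ e₂ e₃) (genPow_ob ob e₀ e₁ e₂ e₃)

end Orl.Main
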