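import Pool.Agent.Work.MP_a6e60d_ag.Q.SqOE
import Pool.Agent.Work.MP_a6e60d_ag.Br.GlueG
import Pool.Agent.Work.MP_a6e60d_ag.Main.Abs
import Pool.Agent.Work.MP_a6e60d_ag.BI.Thick

/-!
MP_a6e60d_ag, final assembly, the side of the tiled algebra: the thick closure of
`O(0) ⊕ O(1) ⊕ E(0) ⊕ E(1)` is the thick closure of all `O(j)` and `E(j)`.
-/

open CategoryTheory Limits Pretriangulated

attribute [-instance] CategoryTheory.catToReflQuiver

universe w

namespace Orl.Main

open Orl.Br Orl.Q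

attribute [local instance] CategoryTheory.Abelian.hasFiniteBiproducts

variable {k : Type} [Field k]

/-- the thick closure of `O(0) ⊕ O(1) ⊕ E(0) ⊕ E(1)` is the thick closure of all `O(j)`, `E(j)`,
for every name of the family of the four objects -/
theorem gen_four (δ : Q.Dat k) [HasDerivedCategory.{w} δ.Cat] (ob : Fin 4 → δ.Cat)
    (h₀ : ob 0 = δ.O 0) (h₁ : ob 1 = δ.O 1) (h₂ : ob 2 = δ.E 0) (h₃ : ob 3 = δ.E 1) :
    Gen (sgl (sumG ob)) = OrlNum.thickOf (fun i : ℤ ⊕ ℤ =>
      (DerivedCategory.singleFunctor δ.Cat 0).obj (Sum.elim δ.O δ.E i)) := by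
  refine le_antisymm ?_ ?_
  · intro Y hY Q hQ hr hi
    refine hY Q hQ hr ?_
    refine (prop_single_sumG ob Q 0).2 fun a => ?_
    fin_cases a
    · change Q ((DerivedCategory.singleFunctor δ.Cat 0).obj (ob 0))
      rw [h₀]
      exact hi (Sum.inl 0)
    · change Q ((DerivedCategory.singleFunctor δ.Cat 0).obj (ob 1))
      rw [h₁]
      exact hi (Sum.inl 1)
    · change Q ((DerivedCategory.singleFunctor δ.Cat 0).obj (ob 2))
      rw [h₂]
      exact hi (Sum.inr 0)
    · change Q ((DerivedCategory.singleFunctor δ.Cat 0).obj (ob 3))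
      rw [h₃]
      exact hi (Sum.inr 1)
  · intro Y hY Q hQ hr hG
    have h := (prop_single_sumG ob Q 0).1 hG
    have hT : Thk (Q.inverseImage (DerivedCategory.singleFunctor δ.Cat 0)) := Thk.ofDerived Q
    have o0 : Q.inverseImage (DerivedCategory.singleFunctor δ.Cat 0) (δ.O 0) := h₀ ▸ h 0
    have o1 : Q.inverseImage (DerivedCategory.singleFunctor δ.Cat 0) (δ.O 1) := h₁ ▸ h 1
    have e0 : Q.inverseImage (DerivedCategory.singleFunctor δ.Cat 0) (δ.E 0) := h₂ ▸ h 2
    have e1 : Q.inverseImage (DerivedCategory.singleFunctor δ.Cat 0) (δ.E 1) := h₃ ▸ h 3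
    refine hY Q hQ hr ?_
    rintro (j | j)
    · exact Dat.gen_O hT o0 o1 j
    · exact Dat.gen_E hT e0 e1 j

/-- the four objects of the side of the tiled algebra -/
noncomputable def obT (δ : Q.Dat k) : Fin 4 → δ.Cat := ![δ.O 0, δ.O 1, δ.E 0, δ.E 1]

/-- **The side of the tiled algebra**: the thick closure of the four objects is the thick closure
of all `O(j)`, `E(j)`. -/
theorem gen_obT (δ : Q.Dat k) [HasDerivedCategory.{w} δ.Cat] :
    Gen (sgl (sumG (obT δ))) = OrlNum.thickOf (fun i : ℤ ⊕ ℤ =>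
      (DerivedCategory.singleFunctor δ.Cat 0).obj (Sum.elim δ.O δ.E i)) :=
  gen_four δ (obT δ) rfl rfl rfl rfl

end Orl.Main
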