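import Pool.Agent.Work.MP_a6e60d_ag.Br.ToMain
import Pool.Agent.Work.MP_a6e60d_ag.DG.ToDefs1
import Pool.Agent.Work.MP_a6e60d_ag.DG.ToDefs2
import Pool.Agent.Work.MP_a6e60d_ag.Main.Fin
import Pool.Agent.Work.MP_a6e60d_ag.Main.InputA
import Pool.Agent.Work.MP_a6e60d_ag.Main.InputB
import Pool.Agent.Work.MP_a6e60d_ag.Main.InputX
import Pool.Agent.Work.MP_a6e60d_ag.Main.PerfX
import Pool.Agent.Work.MP_a6e60d_ag.Main.TSide

/-!
MP_a6e60d_ag: the theorem for the surface `X` of a field datum.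
-/

open CategoryTheory CochainComplex HomComplex Limits Pretriangulated ZeroObject AlgebraicGeometry

attribute [-instance] CategoryTheory.catToReflQuiver

universe w

namespace Orl.Main

open Orl.Br Orl.Q Orl.Fld

attribute [local instance] CategoryTheory.Abelian.hasFiniteBiproducts

variable {k F L K : Type} [Field k] [Field F] [Field L] [Field K] [Algebra k F]
    [Algebra k L] [Algebra k K] [Algebra F K] [Algebra L K] [IsScalarTower k F K]
    [IsScalarTower k L K] (D : FieldDatum k F L K)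

/-- the theorem for the surface of a field datum -/
theorem main_of_datum :
    (∃ R : FdDG.DGAlg.{0} k, R.IsSmooth ∧ R.IsFinDim ∧
      FdDG.QuasiEquivalent (FdDG.perfDG k (XK D.a D.c)) R.perf) ∧
    ¬ FdDG.HasFullSemiExceptionalCollection k (XK D.a D.c) := by
  let _ : HasDerivedCategory.{1} D.qd.Cat := HasDerivedCategory.standard D.qd.Cat
  have : HasExt.{1} (XK D.a D.c).Modules := HasExt.standard (XK D.a D.c).Modules
  obtain ⟨T, M, ob, hp, e₀, e₁, e₂, e₃, ⟨e⟩⟩ := inputX.{1} D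
  have hbr : Bridge (k := k) T.functor (sumG ob) := hp.toBridge
  have hP := isPerfect_iff_gen D.two D.three D.a_ne D.c_ne ob e₀ e₁ e₂ e₃
  have hP' := isPerfectObj_iff_gen D.two D.three D.a_ne D.c_ne ob e₀ e₁ e₂ e₃
  have e' : sgl (T.functor.obj (sumG ob)) ≅ sgl (sumG (D.qd.ob)) :=
    DerivedCategory.Q.mapIso ((HomologicalComplex.single D.qd.Cat (ComplexShape.up ℤ) 0).mapIso e)
  have hG : Gen (sgl (T.functor.obj (sumG ob))) = Gen (sgl (sumG (D.qd.ob))) := gen_congr e'
  constructor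
  · obtain ⟨A, _, _, _, Ψ, _, _, P, n, _, hA, ⟨eA⟩, hfin, hsm⟩ := inputA D
    have eA' : DerivedCategory.Q.obj ((Ψ.mapHomologicalComplex (ComplexShape.up ℤ)).obj P) ≅
        sgl (T.functor.obj (sumG ob)) ⊞ (sgl (T.functor.obj (sumG ob)))⟦(1 : ℤ)⟧ :=
      eA ≪≫ biprod.mapIso e'.symm ((CategoryTheory.shiftFunctor _ (1 : ℤ)).mapIso e'.symm)
    have h := quasiEquivalent_main hP hbr Ψ P n hA ⟨eA'⟩
    exact ⟨((cxDG k A).endAlg P).toFd, hsm.toFd, hfin.toFd, h.toFd_perf⟩
  · refine no_collection_main hP' hbr ?_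
    rw [hG, gen_four D.qd D.qd.ob rfl rfl rfl rfl]
    exact inputB D

end Orl.Main
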