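import Pool.Agent.Work.MP_a6e60d_ag.Main.Transport

/-!
MP_a6e60d_ag, final assembly: the thick closure of one object; the composition of a fully faithful
functor with a functor which is bijective on morphisms.
-/

open CategoryTheory Category Limits Pretriangulated ZeroObject

set_option linter.unusedSectionVars false

attribute [-instance] CategoryTheory.catToReflQuiver

universe w v v₁ v₂ u u₁ u₂

namespace Orl.Main

section

variable {D : Type u} [Category.{v} D] [Preadditive D] [HasZeroObject D] [HasShift D ℤ]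
  [∀ n : ℤ, (shiftFunctor D n).Additive] [Pretriangulated D]

/-- the thick closure of one object -/
def Gen (G : D) : ObjectProperty D := fun Y =>
  ∀ P : ObjectProperty D, P.IsTriangulated → P.IsStableUnderRetracts → P G → P Y

theorem gen_self (G : D) : Gen G G := fun _ _ _ h => h

instance (G : D) : (Gen G).IsStableUnderRetracts where
  of_retract r h P hP hr hG := P.prop_of_retract r (h P hP hr hG)

instance (G : D) : (Gen G).IsClosedUnderIsomorphisms where
  of_iso e h P hP hr hG := P.prop_of_iso e (h P hP hr hG)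

instance (G : D) : (Gen G).IsTriangulated where
  exists_zero := ⟨0, isZero_zero D, fun P _ _ _ => P.prop_zero⟩
  isStableUnderShiftBy n := ⟨fun _ hX P hP hr hG => P.le_shift n _ (hX P hP hr hG)⟩
  toIsTriangulatedClosed₂ := ObjectProperty.IsTriangulatedClosed₂.mk' fun T hT h1 h3 P hP hr hG =>
    P.ext_of_isTriangulatedClosed₂ T hT (h1 P hP hr hG) (h3 P hP hr hG)

theorem gen_le_of (G G' : D) (h : Gen G' G) : Gen G ≤ Gen G' := fun _ hY =>
  hY _ inferInstance inferInstance h

theorem gen_congr {G G' : D} (e : G ≅ G') : Gen G = Gen G' :=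
  le_antisymm (gen_le_of _ _ ((Gen G').prop_of_iso e.symm (gen_self G')))
    (gen_le_of _ _ ((Gen G).prop_of_iso e (gen_self G)))

end

section comp

variable {K' : Type u} [Category.{v} K'] {K : Type u₁} [Category.{v₁} K] {D : Type u₂}
  [Category.{v₂} D] (F : K' ⥤ K) (G : K ⥤ D)

theorem Bij.comp {X Y : K'} (h : Bij F X Y) (h' : Bij G (F.obj X) (F.obj Y)) :
    Bij (F ⋙ G) X Y :=
  show Function.Bijective ((G.map : (F.obj X ⟶ F.obj Y) → _) ∘ (F.map : (X ⟶ Y) → _)) from
    Function.Bijective.comp h' h

theorem bij_of_ff [F.Full] [F.Faithful] (X Y : K') : Bij F X Y :=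
  ⟨F.map_injective, F.map_surjective⟩

theorem BijZ.comp_ff [Preadditive K'] [HasShift K' ℤ] [HasShift K ℤ] [F.CommShift ℤ] [F.Full]
    [F.Faithful] {X Y : K'} (h : ∀ n : ℤ, Bij G (F.obj X) ((F.obj Y)⟦n⟧)) (n : ℤ) :
    Bij (F ⋙ G) X (Y⟦n⟧) :=
  (bij_of_ff F _ _).comp F G ((h n).of_iso (Iso.refl _) ((F.commShiftIso n).symm.app Y))

end comp

end Orl.Main
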