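import Pool.Agent.Work.MP_a6e60d_ag.Main.TSide
import Pool.Agent.Work.MP_a6e60d_ag.Br.MainX

/-!
MP_a6e60d_ag, final assembly, input (T): the thick closure of the four objects on the side of the
tiled algebra is the thick closure of all `O(j)`, `E(j)`.
-/

open CategoryTheory Limits Pretriangulated

attribute [-instance] CategoryTheory.catToReflQuiver

universe w

namespace Orl.Main

open Orl.Br Orl.Q

attribute [local instance] CategoryTheory.Abelian.hasFiniteBiproducts

/-- **Input (T)**: the thick closure of the four objects is the thick closure of all `O(j)`,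
`E(j)`. -/
theorem inputT {k : Type} [Field k] (δ : Q.Dat k) [HasDerivedCategory.{w} δ.Cat] :
    Gen (sgl (sumG δ.ob)) = OrlNum.thickOf (fun i : ℤ ⊕ ℤ =>
      (DerivedCategory.singleFunctor δ.Cat 0).obj (Sum.elim δ.O δ.E i)) :=
  gen_four δ δ.ob rfl rfl rfl rfl

end Orl.Main
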