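import Pool.Agent.Work.MP_a6e60d_ag.Br.OfTriv
import Pool.Agent.Work.MP_a6e60d_ag.Vb.QCoh
import Pool.Agent.Work.MP_a6e60d_ag.Sch.XK

/-!
MP_a6e60d_ag, final assembly: the input on the side of the surface, from a term of `XRep`.
-/

open CategoryTheory CochainComplex HomComplex Limits Pretriangulated ZeroObject AlgebraicGeometry

attribute [-instance] CategoryTheory.catToReflQuiver

universe w

namespace Orl.Main

open Orl.Br Orl.Q Fdim

attribute [local instance] CategoryTheory.Abelian.hasFiniteBiproducts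

variable {k : Type} [Field k] {a b : k} {δ : Dat k}

/-- the objects `O(jD)` and `E(jD)` on a surface with charts -/
noncomputable def cY {A : CommRingCat.{0}} {a : A} {c : Fin 5 → A} {X : Scheme.{0}}
    {π : X ⟶ Spec A} (Y : XCharts A a c π) : Bool → ℤ → X.Modules
  | false, j => Y.LL (Y.cD ^ j)
  | true, j => Y.EE (Y.cD ^ j)

/-- the input (X) from a term of `XRep` -/
theorem inputX_of [HasExt.{w} (XK a b).Modules] (x : XRep.{w} δ (XK a b))
    (hx : x.c = cY (XK.charts a b)) :
    ∃ (F : TRep δ.tiling (XK a b).Modules) (M : MVData F)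
      (ob : Fin 4 → (XK a b).Modules), IsPiece.{w} M (sumG ob) ∧
      Nonempty (ob 0 ≅ (XK.charts a b).LL 1) ∧
      Nonempty (ob 1 ≅ (XK.charts a b).LL (XK.charts a b).cD) ∧
      Nonempty (ob 2 ≅ (XK.charts a b).EE 1) ∧
      Nonempty (ob 3 ≅ (XK.charts a b).EE (XK.charts a b).cD) ∧
      Nonempty (F.functor.obj (sumG ob) ≅ sumG δ.ob) := by
  refine ⟨x.F, x.mvd, x.ob, x.isPiece_G, ?_, ?_, ?_, ?_, ⟨x.phiG⟩⟩
  · exact ⟨eqToIso (by
      change x.c false 0 = _
      rw [hx]
      change (XK.charts a b).LL ((XK.charts a b).cD ^ (0 : ℤ)) = _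
      rw [zpow_zero])⟩
  · exact ⟨eqToIso (by
      change x.c false 1 = _
      rw [hx]
      change (XK.charts a b).LL ((XK.charts a b).cD ^ (1 : ℤ)) = _
      rw [zpow_one])⟩
  · exact ⟨eqToIso (by
      change x.c true 0 = _
      rw [hx]
      change (XK.charts a b).EE ((XK.charts a b).cD ^ (0 : ℤ)) = _
      rw [zpow_zero])⟩
  · exact ⟨eqToIso (by
      change x.c true 1 = _
      rw [hx]
      change (XK.charts a b).EE ((XK.charts a b).cD ^ (1 : ℤ)) = _
      rw [zpow_one])⟩

end Orl.Main
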