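import Pool.Agent.Work.MP_a6e60d_ag.Main.Gen
import Pool.Agent.Work.MP_a6e60d_ag.DG.Bridge
import Pool.Agent.Work.MP_a6e60d_ag.DG.Equiv2
import Pool.Agent.Work.MP_a6e60d_ag.DG.MapCx
import Mathlib.Algebra.Homology.DerivedCategory.Linear

/-!
MP_a6e60d_ag, final assembly: the functor from the homotopy category of `C₁` to the derived
category of `C₂` given by a functor `Φ : C₁ ⥤ C₂` (not exact).
-/

open CategoryTheory CochainComplex HomComplex Limits Pretriangulated ZeroObject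

attribute [-instance] CategoryTheory.catToReflQuiver

universe w w' w''

namespace Orl.Main

/-- the functor from the homotopy category to the derived category -/
noncomputable abbrev KD {C₁ : Type 1} [Category.{0} C₁] [Abelian C₁]
    {C₂ : Type 1} [Category.{0} C₂] [Abelian C₂] [HasDerivedCategory.{w''} C₂]
    (Φ : C₁ ⥤ C₂) [Φ.Additive] :
    HomotopyCategory C₁ (ComplexShape.up ℤ) ⥤ DerivedCategory C₂ :=
  Φ.mapHomotopyCategory (ComplexShape.up ℤ) ⋙ DerivedCategory.Qh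

variable {k : Type} [CommRing k] {C₁ : Type 1} [Category.{0} C₁] [Abelian C₁] [Linear k C₁]
  {C₂ : Type 1} [Category.{0} C₂] [Abelian C₂] [Linear k C₂]
  [HasDerivedCategory.{w'} C₁] [HasDerivedCategory.{w''} C₂]

variable (Φ : C₁ ⥤ C₂) [Φ.Additive]

omit [Linear k C₁] [Linear k C₂] in
theorem isIso_Qh_map {K L : CochainComplex C₂ ℤ} (p : K ⟶ L) [QuasiIso p] :
    IsIso (DerivedCategory.Qh.map ((HomotopyCategory.quotient C₂ (ComplexShape.up ℤ)).map p)) := by
  have h := DerivedCategory.quotientCompQhIso_hom_naturality p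
  have h2 : DerivedCategory.Qh.map ((HomotopyCategory.quotient C₂ (ComplexShape.up ℤ)).map p) =
      (DerivedCategory.quotientCompQhIso C₂).hom.app K ≫ DerivedCategory.Q.map p ≫
        (DerivedCategory.quotientCompQhIso C₂).inv.app L := by
    rw [← Category.assoc, ← h]
    simp
  rw [h2]
  infer_instance

omit [HasDerivedCategory.{w'} C₁] in
/-- If `Hom (T, I) → Hom (Φ T, J)` is a quasi-isomorphism then the functor is bijective on the
morphisms from `T` to `I`. -/
theorem bij_of_qIso [Φ.Linear k] {I : CochainComplex C₁ ℤ} {J : CochainComplex C₂ ℤ}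
    [J.IsKInjective] (p : (Φ.mapHomologicalComplex _).obj I ⟶ J) [QuasiIso p]
    (T : CochainComplex C₁ ℤ)
    (h : QIso (mixl (mapDG (k := k) Φ) (b := J) (Cochain.ofHom p) T)) :
    Bij (KD Φ) ((HomotopyCategory.quotient C₁ (ComplexShape.up ℤ)).obj T)
      ((HomotopyCategory.quotient C₁ (ComplexShape.up ℤ)).obj I) := by
  have hp := isIso_Qh_map p
  let q₁ := HomotopyCategory.quotient C₁ (ComplexShape.up ℤ)
  let q₂ := HomotopyCategory.quotient C₂ (ComplexShape.up ℤ)
  let Φ' := Φ.mapHomologicalComplex (ComplexShape.up ℤ)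
  have key : ∀ φ : T ⟶ I, (KD Φ).map (q₁.map φ) ≫ DerivedCategory.Qh.map (q₂.map p) =
      DerivedCategory.Qh.map (q₂.map (Φ'.map φ ≫ p)) := fun φ => by
    rw [q₂.map_comp, Functor.map_comp]
    rfl
  have inj : ∀ u : Φ'.obj T ⟶ J, DerivedCategory.Qh.map (q₂.map u) = 0 →
      ∃ z : Cochain (Φ'.obj T) J (-1), δ (-1) 0 z = Cochain.ofHom u := fun u hu => by
    have h1 : q₂.map u = q₂.map 0 := (IsKInjective.Qh_map_bijective _ J).1 (by
      rw [hu, q₂.map_zero, DerivedCategory.Qh.map_zero])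
    obtain ⟨z, hz⟩ := Cochain.equivHomotopy _ _ (HomotopyCategory.homotopyOfEq _ _ h1)
    exact ⟨z, by rw [hz, Cochain.ofHom_zero, add_zero]⟩
  refine bij_of_eq_zero (fun a ha => ?_) (fun b => ?_)
  · obtain ⟨φ, rfl⟩ := q₁.map_surjective a
    have h1 := key φ
    rw [ha, zero_comp] at h1
    obtain ⟨z, hz⟩ := inj _ h1.symm
    obtain ⟨y, hy⟩ := h.inj 0 (Cochain.ofHom φ) (δ_ofHom φ) ⟨z, by
      rw [Cochain.ofHom_comp, ← Cochain.map_ofHom] at hz
      exact hz⟩
    change Cochain T I (-1) at y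
    change δ (-1) 0 y = Cochain.ofHom φ at hy
    have h2 : Homotopy φ 0 := (Cochain.equivHomotopy φ 0).symm ⟨y, by
      rw [hy, Cochain.ofHom_zero, add_zero]⟩
    exact (HomotopyCategory.eq_of_homotopy _ _ h2).trans (q₁.map_zero _ _)
  · obtain ⟨g, hg⟩ := (IsKInjective.Qh_map_bijective (q₂.obj (Φ'.obj T)) J).2
      (b ≫ DerivedCategory.Qh.map (q₂.map p))
    obtain ⟨ψ, rfl⟩ := q₂.map_surjective g
    obtain ⟨x, hx, z, hz⟩ := h.surj 0 (Cochain.ofHom ψ) (δ_ofHom ψ)
    obtain ⟨φ, rfl⟩ := exists_ofHom (K := T) (L := I) x hx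
    change Cochain (Φ'.obj T) J (-1) at z
    refine ⟨q₁.map φ, ?_⟩
    refine (cancel_mono (DerivedCategory.Qh.map (q₂.map p))).1 ?_
    refine (key φ).trans (Eq.trans ?_ hg)
    congr 1
    have h2 : δ (-1) 0 z = Cochain.ofHom ψ - Cochain.ofHom (Φ'.map φ ≫ p) := by
      rw [Cochain.ofHom_comp, ← Cochain.map_ofHom]
      exact hz
    exact (HomotopyCategory.eq_of_homotopy _ _ ((Cochain.equivHomotopy ψ _).symm ⟨z, by
      rw [h2, sub_add_cancel]⟩)).symm

omit [HasDerivedCategory.{w'} C₁] in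
theorem bijZ_of_qIso [Φ.Linear k] {I : CochainComplex C₁ ℤ} {J : CochainComplex C₂ ℤ}
    [J.IsKInjective] (p : (Φ.mapHomologicalComplex _).obj I ⟶ J) [QuasiIso p]
    (h : QIso (mixl (mapDG (k := k) Φ) (b := J) (Cochain.ofHom p) I)) :
    BijZ (KD Φ) ((HomotopyCategory.quotient C₁ (ComplexShape.up ℤ)).obj I)
      ((HomotopyCategory.quotient C₁ (ComplexShape.up ℤ)).obj I) := by
  intro n
  let q := HomotopyCategory.quotient C₁ (ComplexShape.up ℤ)
  have hT : DGCat.Thick (A := cxDG k C₁) I (I⟦-n⟧ : CochainComplex C₁ ℤ) :=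
    .retract (-n) (cxDGShift (k := k) (-n) I).isRetract .gen
  have h1 : Bij (KD Φ) (q.obj (I⟦-n⟧)) (q.obj I) :=
    bij_of_qIso Φ p _ (mixl_qIso (mapDG Φ) (δ_ofHom p) h hT)
  have h2 : Bij (KD Φ) ((q.obj I)⟦-n⟧) (q.obj I) :=
    h1.of_iso ((q.commShiftIso (-n)).app I) (Iso.refl _)
  exact (h2.shift n).of_iso ((shiftFunctorCompIsoId _ (-n) n (by omega)).app (q.obj I))
    (Iso.refl _)

end Orl.Main
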