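import Pool.Agent.Work.MP_a6e60d_ag.Main.Pair

/-!
MP_a6e60d_ag, final assembly: transport of full semi-exceptional collections from the derived
category of `C₁` to the derived category of `C₂`.
-/

open CategoryTheory CochainComplex HomComplex Limits Pretriangulated ZeroObject

attribute [-instance] CategoryTheory.catToReflQuiver

universe w w' w''

namespace Orl.Main

variable {C₁ : Type 1} [Category.{0} C₁] [Abelian C₁]
  {C₂ : Type 1} [Category.{0} C₂] [Abelian C₂]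
  [HasDerivedCategory.{w'} C₁] [HasDerivedCategory.{w''} C₂]
  {k : Type} [Field k] [Linear k C₁] [Linear k C₂] [HasColimitsOfShape (Discrete ℕ) C₁]
  (Φ : C₁ ⥤ C₂) [Φ.Additive] {I : CochainComplex C₁ ℤ} (hI : I.IsKInjective)
  {J : CochainComplex C₂ ℤ} [J.IsKInjective] (p : (Φ.mapHomologicalComplex _).obj I ⟶ J)
  [QuasiIso p]

omit [Linear k C₂] [J.IsKInjective] in
include k hI p in
theorem gen_G₂ (X : (KP I).FullSubcategory) :
    Gen (DerivedCategory.Q.obj J) ((G₂ Φ I).obj X) := by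
  have e : (G₂ Φ I).obj (kI I hI) ≅ DerivedCategory.Q.obj J :=
    kIIso₂ Φ hI ≪≫ asIso (DerivedCategory.Q.map p)
  exact gen_kI k I hI X ((Gen (DerivedCategory.Q.obj J)).inverseImage (G₂ Φ I))
    inferInstance inferInstance ((Gen _).prop_of_iso e.symm (gen_self _))

include hI in
theorem exists_of_gen_G₂ [Φ.Linear k]
    (hp : QIso (mixl (mapDG (k := k) Φ) (b := J) (Cochain.ofHom p) I)) (Y : DerivedCategory C₂)
    (hY : Gen (DerivedCategory.Q.obj J) Y) :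
    ∃ X : (KP I).FullSubcategory, Nonempty ((G₂ Φ I).obj X ≅ Y) := by
  have e : (G₂ Φ I).obj (kI I hI) ≅ DerivedCategory.Q.obj J :=
    kIIso₂ Φ hI ≪≫ asIso (DerivedCategory.Q.map p)
  have hb := fun X Y => bij_G₂ Φ hI p hp X Y
  have hf : (G₂ Φ I).Full := ⟨(hb _ _).2⟩
  have hf' : (G₂ Φ I).Faithful := ⟨fun h => (hb _ _).1 h⟩
  let Q' : ObjectProperty (DerivedCategory C₂) := (G₂ Φ I).essImage
  have h3 : Q'.IsTriangulated := inferInstance
  have h4 : Q'.IsStableUnderRetracts := by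
    refine ⟨fun {Z W} r hW => ?_⟩
    obtain ⟨A, ⟨e⟩⟩ := hW
    obtain ⟨ε, hε⟩ := (G₂ Φ I).map_surjective (e.hom ≫ r.r ≫ r.i ≫ e.inv)
    obtain ⟨B, i, s, his, hsi⟩ := exists_split k A ε (by
      apply (G₂ Φ I).map_injective
      rw [(G₂ Φ I).map_comp, hε]
      simp)
    have h5 : (G₂ Φ I).map i ≫ (G₂ Φ I).map s = 𝟙 _ := by
      rw [← (G₂ Φ I).map_comp, his, (G₂ Φ I).map_id]
    have h6 : (G₂ Φ I).map s ≫ (G₂ Φ I).map i = e.hom ≫ r.r ≫ r.i ≫ e.inv := by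
      rw [← (G₂ Φ I).map_comp, hsi, hε]
    refine ⟨B, ⟨⟨(G₂ Φ I).map i ≫ e.hom ≫ r.r, r.i ≫ e.inv ≫ (G₂ Φ I).map s,
      ?_, ?_⟩⟩⟩
    · calc ((G₂ Φ I).map i ≫ e.hom ≫ r.r) ≫ r.i ≫ e.inv ≫ (G₂ Φ I).map s
          = (G₂ Φ I).map i ≫ (e.hom ≫ r.r ≫ r.i ≫ e.inv) ≫ (G₂ Φ I).map s := by
            simp only [Category.assoc]
        _ = ((G₂ Φ I).map i ≫ (G₂ Φ I).map s) ≫ ((G₂ Φ I).map i ≫ (G₂ Φ I).map s) := by
            rw [← h6]
            simp only [Category.assoc]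
        _ = 𝟙 _ := by rw [h5, Category.id_comp]
    · calc (r.i ≫ e.inv ≫ (G₂ Φ I).map s) ≫ (G₂ Φ I).map i ≫ e.hom ≫ r.r
          = r.i ≫ e.inv ≫ ((G₂ Φ I).map s ≫ (G₂ Φ I).map i) ≫ e.hom ≫ r.r := by
            simp only [Category.assoc]
        _ = (r.i ≫ r.r) ≫ (r.i ≫ r.r) := by
            rw [h6]
            simp only [Category.assoc, Iso.inv_hom_id_assoc]
        _ = 𝟙 _ := by rw [r.retract, Category.id_comp]
  exact hY Q' h3 h4 ⟨kI I hI, ⟨e⟩⟩

include hI in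
/-- A full semi-exceptional collection of the thick closure of `I` in the derived category of `C₁`
gives one of the thick closure of `J` in the derived category of `C₂`. -/
theorem collection_transport [Φ.Linear k]
    (hp : QIso (mixl (mapDG (k := k) Φ) (b := J) (Cochain.ofHom p) I))
    (H : ∃ (n : ℕ) (E : Fin n → DerivedCategory C₁), (∀ i, Gen (DerivedCategory.Q.obj I) (E i)) ∧
      IsSemiExcCollection k E ∧ FullIn (Gen (DerivedCategory.Q.obj I)) E) :
    ∃ (n : ℕ) (E : Fin n → DerivedCategory C₂), (∀ i, Gen (DerivedCategory.Q.obj J) (E i)) ∧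
      IsSemiExcCollection k E ∧ FullIn (Gen (DerivedCategory.Q.obj J)) E := by
  have hb := fun X Y => bij_G₂ Φ hI p hp X Y
  have hf : (G₂ Φ I).Full := ⟨(hb _ _).2⟩
  have hf' : (G₂ Φ I).Faithful := ⟨fun h => (hb _ _).1 h⟩
  exact transport k (G₁ I) (G₂ Φ I) (Gen (DerivedCategory.Q.obj I)) (gen_iff k I hI)
    (Gen (DerivedCategory.Q.obj J)) (gen_G₂ (k := k) Φ hI p) (exists_of_gen_G₂ Φ hI p hp) H

end Orl.Main
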