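import Pool.Agent.Work.MP_a6e60d_ag.Main.KFun

/-!
MP_a6e60d_ag, final assembly: the homotopy category of the K-injective complexes in the thick
closure of `I` and its two fully faithful functors, to the derived category of `C₁` and (by `Φ`)
to the derived category of `C₂`.
-/

open CategoryTheory CochainComplex HomComplex Limits Pretriangulated ZeroObject

attribute [-instance] CategoryTheory.catToReflQuiver

universe w w' w''

namespace Orl.Main

variable {C₁ : Type 1} [Category.{0} C₁] [Abelian C₁]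
  {C₂ : Type 1} [Category.{0} C₂] [Abelian C₂]
  [HasDerivedCategory.{w'} C₁] [HasDerivedCategory.{w''} C₂]

/-- the K-injective complexes in the thick closure of `I` -/
def KP (I : CochainComplex C₁ ℤ) : ObjectProperty (HomotopyCategory C₁ (ComplexShape.up ℤ)) :=
  (HomotopyCategory.subcategoryAcyclic C₁).rightOrthogonal ⊓
    (Gen (DerivedCategory.Q.obj I)).inverseImage DerivedCategory.Qh

instance : (HomotopyCategory.subcategoryAcyclic C₁).rightOrthogonal.IsStableUnderRetracts where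
  of_retract r h A f hA := by
    have h1 := h (f ≫ r.i) hA
    have h2 := congrArg (fun x => x ≫ r.r) h1
    simpa using h2

instance (I : CochainComplex C₁ ℤ) : (KP I).IsTriangulated := by
  unfold KP
  infer_instance

instance (I : CochainComplex C₁ ℤ) : (KP I).IsClosedUnderIsomorphisms := by
  unfold KP
  infer_instance

instance (I : CochainComplex C₁ ℤ) : (KP I).IsStableUnderRetracts where
  of_retract r h := ⟨ObjectProperty.prop_of_retract _ r h.1,
    ObjectProperty.prop_of_retract (Gen _) (r.map DerivedCategory.Qh) h.2⟩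

theorem kp_quotient {I : CochainComplex C₁ ℤ} (J : CochainComplex C₁ ℤ) (hJ : J.IsKInjective)
    (h : Gen (DerivedCategory.Q.obj I) (DerivedCategory.Q.obj J)) :
    KP I ((HomotopyCategory.quotient C₁ (ComplexShape.up ℤ)).obj J) :=
  ⟨hJ.rightOrthogonal, (Gen _).prop_of_iso
    ((DerivedCategory.quotientCompQhIso C₁).symm.app J) h⟩

/-- the functor to the derived category of `C₁` -/
noncomputable abbrev G₁ (I : CochainComplex C₁ ℤ) : (KP I).FullSubcategory ⥤ DerivedCategory C₁ :=
  (KP I).ι ⋙ DerivedCategory.Qh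

theorem bij_G₁ (I : CochainComplex C₁ ℤ) (X Y : (KP I).FullSubcategory) : Bij (G₁ I) X Y :=
  (bij_of_ff _ _ _).comp _ _
    (Y.property.1.map_bijective_of_isTriangulated DerivedCategory.Qh X.obj)

instance (I : CochainComplex C₁ ℤ) : (G₁ I).Full where
  map_surjective := (bij_G₁ I _ _).2

instance (I : CochainComplex C₁ ℤ) : (G₁ I).Faithful where
  map_injective h := (bij_G₁ I _ _).1 h

/-- `I` as an object of the category -/
noncomputable def kI (I : CochainComplex C₁ ℤ) (hI : I.IsKInjective) : (KP I).FullSubcategory :=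
  ⟨(HomotopyCategory.quotient C₁ (ComplexShape.up ℤ)).obj I, kp_quotient I hI (gen_self _)⟩

/-- the image of `I` -/
noncomputable def kIIso (I : CochainComplex C₁ ℤ) (hI : I.IsKInjective) :
    (G₁ I).obj (kI I hI) ≅ DerivedCategory.Q.obj I :=
  (DerivedCategory.quotientCompQhIso C₁).app I

theorem gen_iff (k : Type) [CommRing k] [Linear k C₁] [HasColimitsOfShape (Discrete ℕ) C₁]
    (I : CochainComplex C₁ ℤ) (hI : I.IsKInjective) (Y : DerivedCategory C₁) :
    Gen (DerivedCategory.Q.obj I) Y ↔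
      ∃ X : (KP I).FullSubcategory, Nonempty ((G₁ I).obj X ≅ Y) := by
  constructor
  · intro h
    obtain ⟨J, hJ, ⟨e⟩⟩ := exists_thick k hI h
    have hJ' := isKInjective_of_thick hI hJ
    exact ⟨⟨_, kp_quotient J hJ' ((Gen _).prop_of_iso e.symm h)⟩,
      ⟨(DerivedCategory.quotientCompQhIso C₁).app J ≪≫ e⟩⟩
  · rintro ⟨X, ⟨e⟩⟩
    exact (Gen _).prop_of_iso e X.property.2

/-- every object belongs to the thick closure of `I` -/
theorem gen_kI (k : Type) [Field k] [Linear k C₁] [HasColimitsOfShape (Discrete ℕ) C₁]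
    (I : CochainComplex C₁ ℤ) (hI : I.IsKInjective) (X : (KP I).FullSubcategory)
    (Q : ObjectProperty (KP I).FullSubcategory) (hQ : Q.IsTriangulated)
    (hr : Q.IsStableUnderRetracts) (h : Q (kI I hI)) : Q X :=
  fullIn_lift k (G₁ I) (Gen (DerivedCategory.Q.obj I)) (gen_iff k I hI) (ι := Unit)
    (X := fun _ => kI I hI) (E := fun _ => DerivedCategory.Q.obj I)
    (fun _ => ⟨kIIso I hI⟩) (fun P hP hPr h' _ hY => hY P hP hPr (h' ())) Q hQ hr
    (fun _ => h) X

section

variable {k : Type} [Field k] [Linear k C₁] [Linear k C₂] [HasColimitsOfShape (Discrete ℕ) C₁]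
  (Φ : C₁ ⥤ C₂) [Φ.Additive] [Φ.Linear k] {I : CochainComplex C₁ ℤ} (hI : I.IsKInjective)
  {J : CochainComplex C₂ ℤ} [J.IsKInjective] (p : (Φ.mapHomologicalComplex _).obj I ⟶ J)
  [QuasiIso p] (hp : QIso (mixl (mapDG (k := k) Φ) (b := J) (Cochain.ofHom p) I))

/-- the functor to the derived category of `C₂` -/
noncomputable abbrev G₂ (I : CochainComplex C₁ ℤ) : (KP I).FullSubcategory ⥤ DerivedCategory C₂ :=
  (KP I).ι ⋙ KD Φ

include hI hp in
theorem bij_G₂ (X Y : (KP I).FullSubcategory) : Bij (G₂ Φ I) X Y := by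
  have h1 := bijZ_of_qIso Φ p hp
  exact ffOn_of_gen (F := G₂ Φ I) (kI I hI) (fun n =>
    BijZ.comp_ff (KP I).ι (KD Φ) (X := kI I hI) (Y := kI I hI) h1 n) ⊤
    (fun X _ Q hQ hr h => gen_kI k I hI X Q hQ hr h) X Y trivial trivial

/-- the image of `I` -/
noncomputable def kIIso₂ : (G₂ Φ I).obj (kI I hI) ≅
    DerivedCategory.Q.obj ((Φ.mapHomologicalComplex _).obj I) :=
  (DerivedCategory.quotientCompQhIso C₂).app _

end

/-- idempotents split -/
theorem exists_split (k : Type) [Field k] [Linear k C₁] [HasColimitsOfShape (Discrete ℕ) C₁]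
    {I : CochainComplex C₁ ℤ} (X : (KP I).FullSubcategory) (e : X ⟶ X)
    (he : e ≫ e = e) : ∃ (Z : (KP I).FullSubcategory) (i : Z ⟶ X) (r : X ⟶ Z),
      i ≫ r = 𝟙 Z ∧ r ≫ i = e := by
  obtain ⟨X, hX⟩ := X
  obtain ⟨L, rfl⟩ := HomotopyCategory.quotient_obj_surjective X
  let q := HomotopyCategory.quotient C₁ (ComplexShape.up ℤ)
  obtain ⟨ε, hε⟩ := q.map_surjective e.hom
  have h1 : q.map (ε ≫ ε) = q.map ε := by
    rw [q.map_comp, hε]
    exact congrArg (fun x => x.hom) he
  obtain ⟨z, hz⟩ := Cochain.equivHomotopy _ _ (HomotopyCategory.homotopyOfEq _ _ h1)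
  obtain ⟨b, u, v, hu, hv, h2, h3⟩ := (isPerfectLike_cxDG (k := k) (C := C₁)).split (a := L)
    (Cochain.ofHom ε) 0 (δ_ofHom ε) ⟨z, by
      rw [Cochain.ofHom_comp] at hz
      change δ (-1) 0 z = (Cochain.ofHom ε).comp (Cochain.ofHom ε) (add_zero 0) - Cochain.ofHom ε
      rw [hz, add_sub_cancel_right]⟩
  change CochainComplex C₁ ℤ at b
  change Cochain b L 0 at u
  change Cochain L b 0 at v
  obtain ⟨y, hy⟩ := h2
  obtain ⟨w, hw⟩ := h3
  change Cochain b b (-1) at y
  change Cochain L L (-1) at w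
  change δ (-1) 0 y = u.comp v (add_zero 0) - Cochain.ofHom (𝟙 b) at hy
  change δ (-1) 0 w = v.comp u (add_zero 0) - Cochain.ofHom ε at hw
  obtain ⟨π, rfl⟩ := exists_ofHom (K := b) (L := L) u hu
  obtain ⟨ρ, rfl⟩ := exists_ofHom (K := L) (L := b) v hv
  rw [← Cochain.ofHom_comp] at hy hw
  have e1 : q.map π ≫ q.map ρ = 𝟙 _ := by
    rw [← q.map_comp, ← q.map_id]
    exact HomotopyCategory.eq_of_homotopy _ _ ((Cochain.equivHomotopy _ _).symm ⟨y, by
      rw [hy, sub_add_cancel]⟩)
  have e2 : q.map ρ ≫ q.map π = q.map ε := by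
    rw [← q.map_comp]
    exact HomotopyCategory.eq_of_homotopy _ _ ((Cochain.equivHomotopy _ _).symm ⟨w, by
      rw [hw, sub_add_cancel]⟩)
  have hb : KP I (q.obj b) := (KP I).prop_of_retract ⟨q.map π, q.map ρ, e1⟩ hX
  refine ⟨⟨q.obj b, hb⟩, ObjectProperty.homMk (q.map π), ObjectProperty.homMk (q.map ρ), ?_, ?_⟩
  · apply ObjectProperty.hom_ext
    exact e1
  · apply ObjectProperty.hom_ext
    exact e2.trans hε

end Orl.Main
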