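import Pool.Agent.Work.MP_a6e60d_ag.BC.Perf
import Pool.Agent.Work.MP_a6e60d_ag.Main.FF

/-!
MP_a6e60d_ag, final assembly: transport of full semi-exceptional collections along two
triangulated functors `G₁ : K ⥤ D₁`, `G₂ : K ⥤ D₂` which are fully faithful.
-/

open CategoryTheory Category Limits Pretriangulated Module ZeroObject

set_option linter.unusedSectionVars false

attribute [-instance] CategoryTheory.catToReflQuiver

universe w v v₁ v₂ u u₁ u₂

namespace Orl.Main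

section ff

variable (k : Type w) [Field k]
  {K : Type u} [Category.{v} K] [Preadditive K] [HasZeroObject K] [HasShift K ℤ]
  [∀ n : ℤ, (shiftFunctor K n).Additive] [Pretriangulated K] [Linear k K]
  {D : Type u₁} [Category.{v₁} D] [Preadditive D] [HasZeroObject D] [HasShift D ℤ]
  [∀ n : ℤ, (shiftFunctor D n).Additive] [Pretriangulated D] [Linear k D]
  (G : K ⥤ D) [G.CommShift ℤ] [G.IsTriangulated] [G.Linear k] [G.Full] [G.Faithful]

/-- the endomorphism rings of `X` and of an object isomorphic to `G X` -/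
noncomputable def endIso {X : K} {Y : D} (e : G.obj X ≅ Y) : End X ≃+* End Y where
  toEquiv := (Functor.FullyFaithful.ofFullyFaithful G).homEquiv.trans (e.homCongr e)
  map_mul' f g := by
    change e.inv ≫ G.map (g ≫ f) ≫ e.hom = (e.inv ≫ G.map g ≫ e.hom) ≫ e.inv ≫ G.map f ≫ e.hom
    simp
  map_add' f g := by
    change e.inv ≫ G.map (f + g) ≫ e.hom = e.inv ≫ G.map f ≫ e.hom + e.inv ≫ G.map g ≫ e.hom
    simp [G.map_add]

/-- the morphisms from `X` to `X'⟦m⟧` and between objects isomorphic to the images -/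
noncomputable def homIso {X X' : K} {Y Y' : D} (e : G.obj X ≅ Y) (e' : G.obj X' ≅ Y') (m : ℤ) :
    (X ⟶ X'⟦m⟧) ≃ (Y ⟶ Y'⟦m⟧) :=
  (Functor.FullyFaithful.ofFullyFaithful G).homEquiv.trans
    (e.homCongr ((G.commShiftIso m).app X' ≪≫ (shiftFunctor D m).mapIso e'))

theorem homIso_zero {X X' : K} {Y Y' : D} (e : G.obj X ≅ Y) (e' : G.obj X' ≅ Y') (m : ℤ) :
    homIso G e e' m 0 = 0 := by
  change e.inv ≫ G.map 0 ≫ _ = 0
  simp

theorem homIso_forall {X X' : K} {Y Y' : D} (e : G.obj X ≅ Y) (e' : G.obj X' ≅ Y') (m : ℤ) :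
    (∀ f : X ⟶ X'⟦m⟧, f = 0) ↔ ∀ f : Y ⟶ Y'⟦m⟧, f = 0 := by
  constructor
  · intro h f
    obtain ⟨g, rfl⟩ := (homIso G e e' m).surjective f
    rw [h g, homIso_zero]
  · intro h f
    exact (homIso G e e' m).injective ((h _).trans (homIso_zero G e e' m).symm)

theorem isSemiExceptional_iff {X : K} {Y : D} (e : G.obj X ≅ Y) :
    IsSemiExceptional k X ↔ IsSemiExceptional k Y := by
  let φ : End X ≃ₗ[k] End Y :=
    { endIso G e with
      map_smul' := fun c f => by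
        change e.inv ≫ G.map (c • f) ≫ e.hom = c • (e.inv ≫ G.map f ≫ e.hom)
        rw [Functor.map_smul, Linear.smul_comp, Linear.comp_smul] }
  constructor
  · rintro ⟨h1, h2, h3⟩
    exact ⟨fun m hm => (homIso_forall G e e m).1 (h1 m hm), Module.Finite.equiv φ,
      (endIso G e).isSemisimpleRing⟩
  · rintro ⟨h1, h2, h3⟩
    exact ⟨fun m hm => (homIso_forall G e e m).2 (h1 m hm), Module.Finite.equiv φ.symm,
      (endIso G e).symm.isSemisimpleRing⟩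

theorem isSemiExcCollection_iff {n : ℕ} {X : Fin n → K} {Y : Fin n → D}
    (e : ∀ i, G.obj (X i) ≅ Y i) : IsSemiExcCollection k X ↔ IsSemiExcCollection k Y := by
  constructor
  · rintro ⟨h1, h2⟩
    exact ⟨fun i => (isSemiExceptional_iff k G (e i)).1 (h1 i), fun i j hij m =>
      (homIso_forall G (e j) (e i) m).1 (h2 i j hij m)⟩
  · rintro ⟨h1, h2⟩
    exact ⟨fun i => (isSemiExceptional_iff k G (e i)).2 (h1 i), fun i j hij m =>
      (homIso_forall G (e j) (e i) m).2 (h2 i j hij m)⟩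

end ff

section main

variable (k : Type w) [Field k]
  {K : Type u} [Category.{v} K] [Preadditive K] [HasZeroObject K] [HasShift K ℤ]
  [∀ n : ℤ, (shiftFunctor K n).Additive] [Pretriangulated K] [Linear k K]
  {D₁ : Type u₁} [Category.{v₁} D₁] [Preadditive D₁] [HasZeroObject D₁] [HasShift D₁ ℤ]
  [∀ n : ℤ, (shiftFunctor D₁ n).Additive] [Pretriangulated D₁] [Linear k D₁]
  {D₂ : Type u₂} [Category.{v₂} D₂] [Preadditive D₂] [HasZeroObject D₂] [HasShift D₂ ℤ]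
  [∀ n : ℤ, (shiftFunctor D₂ n).Additive] [Pretriangulated D₂] [Linear k D₂]
  (G₁ : K ⥤ D₁) [G₁.CommShift ℤ] [G₁.IsTriangulated] [G₁.Linear k] [G₁.Full] [G₁.Faithful]
  (G₂ : K ⥤ D₂) [G₂.CommShift ℤ] [G₂.IsTriangulated] [G₂.Linear k] [G₂.Full] [G₂.Faithful]

omit [Linear k K] [Linear k D₁] [G₁.Linear k] in
include k in
/-- generation can be checked in `D₁` -/
theorem fullIn_lift (Pf₁ : ObjectProperty D₁) [Pf₁.IsStableUnderRetracts]
    (h₁ : ∀ Y, Pf₁ Y ↔ ∃ X : K, Nonempty (G₁.obj X ≅ Y)) {ι : Type*} {X : ι → K} {E : ι → D₁}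
    (hX : ∀ i, Nonempty (G₁.obj (X i) ≅ E i)) (hf : FullIn Pf₁ E)
    (Q' : ObjectProperty K) (hQ' : Q'.IsTriangulated) (hQr : Q'.IsStableUnderRetracts)
    (hi : ∀ i, Q' (X i)) (A : K) : Q' A := by
  let Q'' : ObjectProperty D₁ := Q'.map G₁
  have h3 : Q''.IsTriangulated := inferInstance
  have h4 : Q''.IsStableUnderRetracts := by
    refine ⟨fun {Z W} r hW => ?_⟩
    obtain ⟨A, hA, ⟨e⟩⟩ := hW
    have hZ : Pf₁ Z := ObjectProperty.prop_of_retract Pf₁ r ((h₁ _).2 ⟨A, ⟨e⟩⟩)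
    obtain ⟨B, ⟨e'⟩⟩ := (h₁ _).1 hZ
    refine ⟨B, ?_, ⟨e'⟩⟩
    obtain ⟨i, hi⟩ := G₁.map_surjective (e'.hom ≫ r.i ≫ e.inv)
    obtain ⟨p, hp⟩ := G₁.map_surjective (e.hom ≫ r.r ≫ e'.inv)
    refine ObjectProperty.prop_of_retract Q' (Y := A) ⟨i, p, ?_⟩ hA
    apply G₁.map_injective
    rw [G₁.map_comp, hi, hp, G₁.map_id]
    simp
  have h5 : ∀ i, Q'' (E i) := fun i => ⟨X i, hi i, hX i⟩
  obtain ⟨B, hB, ⟨e'⟩⟩ := hf Q'' h3 h4 h5 (G₁.obj A) ((h₁ _).2 ⟨A, ⟨Iso.refl _⟩⟩)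
  have e'' : B ≅ A := (Functor.FullyFaithful.ofFullyFaithful G₁).preimageIso e'
  exact Q'.prop_of_iso e'' hB

omit [Linear k K] [Linear k D₂] [G₂.Linear k] [G₂.Full] [G₂.Faithful] in
/-- the image of a generating family generates -/
theorem fullIn_push (Pf₂ : ObjectProperty D₂)
    (h₂' : ∀ Y, Pf₂ Y → ∃ X : K, Nonempty (G₂.obj X ≅ Y)) {ι : Type*} {X : ι → K}
    (H : ∀ Q : ObjectProperty K, Q.IsTriangulated → Q.IsStableUnderRetracts →
      (∀ i, Q (X i)) → ∀ A, Q A) : FullIn Pf₂ fun i => G₂.obj (X i) := by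
  intro Q hQ hr hi Y hY
  have hQi : Q.IsClosedUnderIsomorphisms := inferInstance
  obtain ⟨A, ⟨e⟩⟩ := h₂' Y hY
  exact Q.prop_of_iso e (H (Q.inverseImage G₂) inferInstance inferInstance hi A)

/-- transport of a full semi-exceptional collection -/
theorem transport (Pf₁ : ObjectProperty D₁) [Pf₁.IsStableUnderRetracts]
    (h₁ : ∀ Y, Pf₁ Y ↔ ∃ X : K, Nonempty (G₁.obj X ≅ Y)) (Pf₂ : ObjectProperty D₂)
    (h₂ : ∀ X : K, Pf₂ (G₂.obj X)) (h₂' : ∀ Y, Pf₂ Y → ∃ X : K, Nonempty (G₂.obj X ≅ Y))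
    (H : ∃ (n : ℕ) (E : Fin n → D₁), (∀ i, Pf₁ (E i)) ∧ IsSemiExcCollection k E ∧
      FullIn Pf₁ E) :
    ∃ (n : ℕ) (E : Fin n → D₂), (∀ i, Pf₂ (E i)) ∧ IsSemiExcCollection k E ∧ FullIn Pf₂ E := by
  obtain ⟨n, E, hE, hc, hf⟩ := H
  choose X hX using fun i => (h₁ _).1 (hE i)
  refine ⟨n, fun i => G₂.obj (X i), fun i => h₂ _, ?_, ?_⟩
  · exact (isSemiExcCollection_iff k G₂ fun i => Iso.refl _).1
      ((isSemiExcCollection_iff k G₁ fun i => (hX i).some).2 hc)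
  · exact fullIn_push G₂ Pf₂ h₂' fun Q hQ hr hi A =>
      fullIn_lift k G₁ Pf₁ h₁ hX hf Q hQ hr hi A

end main

end Orl.Main
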